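import Pool.Agent.R222.VI.Nin
import Pool.Agent.Y273.VI.Fin

/-! # The theorem for matrices -/

set_option autoImplicit false

namespace Pool.Agent.R222.VI

open MeasureTheory Set Filter Topology
open Pool.Agent.Y273.VI (RCp Rp RCp_of Dat Tm T_meas meas_W det_cab)
open Pool.Agent.W360.MQ (cab)
open Pool.Agent.TH937.ZC (gf)
open Pool.Agent.W523.MQ.OM (T)

/-- the Morrey inequality for the supports -/
theorem main_dat {a b : ℝ → ℝ} (hd : ∀ ρ, 0 < ρ → ∃ A B, Dat a b ρ A B)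
    {F₀ : Matrix (Fin 2) (Fin 2) ℝ} {Ω : Set (Fin 2 → ℝ)}
    {ϑ : (Fin 2 → ℝ) → (Fin 2 → ℝ)} (h : Tm Ω ϑ) (hF : ‖(cab F₀).2‖ < ‖(cab F₀).1‖)
    (hpos : ∀ᵐ x ∂(volume.restrict Ω), ‖(T F₀ (fderiv ℝ ϑ x)).2‖ < ‖(T F₀ (fderiv ℝ ϑ x)).1‖)
    (hfin : ∫⁻ x in Ω, ENNReal.ofReal (gf a b (T F₀ (fderiv ℝ ϑ x))) ≠ ⊤) :
    IntegrableOn (fun x => gf a b (T F₀ (fderiv ℝ ϑ x))) Ω ∧
      gf a b (cab F₀) * (volume Ω).toReal ≤ ∫ x in Ω, gf a b (T F₀ (fderiv ℝ ϑ x)) := by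
  have hcv : ∀ s, ConvexOn ℝ (Ioc 0 s) (fun v => a v * s + b v) := by
    obtain ⟨A, B, D⟩ := hd 1 one_pos
    exact D.cv
  have hm := meas_W hcv F₀ hpos
  set v0 : ℝ := ‖(cab F₀).1‖ - ‖(cab F₀).2‖ with hv0
  set s0 : ℝ := ‖(cab F₀).1‖ + ‖(cab F₀).2‖ with hs0
  have hv0p : 0 < v0 := by rw [hv0]; linarith
  have hvs : v0 ≤ s0 := by rw [hv0, hs0]; linarith [norm_nonneg (cab F₀).2]
  have key : ∀ ρ A B, ρ < v0 → Dat a b ρ A B →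
      IntegrableOn (fun x => gf a b (T F₀ (fderiv ℝ ϑ x))) Ω ∧
      ((a ρ + A * (v0 - ρ)) * s0 + (b ρ + B * (v0 - ρ))) * (volume Ω).toReal
        ≤ ∫ x in Ω, gf a b (T F₀ (fderiv ℝ ϑ x)) := fun ρ A B h1 D => D.main h h1 hpos hfin hm
  obtain ⟨A1, B1, D1⟩ := hd (v0 / 2) (by positivity)
  refine ⟨(key (v0 / 2) A1 B1 (by linarith) D1).1, ?_⟩
  set I : ℝ := ∫ x in Ω, gf a b (T F₀ (fderiv ℝ ϑ x)) with hI
  set f : ℝ → ℝ := fun v => a v * s0 + b v with hf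
  have hfc : ContinuousAt f v0 := by
    obtain ⟨A, B, D⟩ := hd v0 hv0p
    exact ((D.dA.mul_const s0).add D.dB).continuousAt
  set L : ℝ → ℝ := fun ρ => f ρ + (v0 - ρ) * ((f ρ - f (v0 / 2)) / (ρ - v0 / 2)) with hL
  have hLc : ContinuousAt L v0 := by
    have h1 : ContinuousAt (fun ρ : ℝ => ρ - v0 / 2) v0 := by fun_prop
    have h2 : ContinuousAt (fun ρ : ℝ => v0 - ρ) v0 := by fun_prop
    exact hfc.add (h2.mul ((hfc.sub continuousAt_const).div h1 (by linarith)))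
  have hL0 : L v0 = f v0 := by simp [hL]
  have hLle : ∀ ρ A B, v0 / 2 < ρ → ρ < v0 → Dat a b ρ A B →
      L ρ ≤ (a ρ + A * (v0 - ρ)) * s0 + (b ρ + B * (v0 - ρ)) := by
    intro ρ A B h1 h2 D
    have hd : HasDerivAt f (A * s0 + B) ρ := (D.dA.mul_const s0).add D.dB
    have h3 := (hcv s0).slope_le_of_hasDerivAt (x := v0 / 2) (y := ρ)
      ⟨by positivity, by linarith⟩ ⟨D.ρ0, by linarith⟩ h1 hd
    rw [slope_def_field] at h3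
    have h4 := mul_le_mul_of_nonneg_left h3 (by linarith : 0 ≤ v0 - ρ)
    simp only [hL]
    refine (add_le_add le_rfl h4).trans (le_of_eq ?_)
    simp only [hf]
    ring
  have hvol : 0 ≤ (volume Ω).toReal := ENNReal.toReal_nonneg
  have hgoal : f v0 * (volume Ω).toReal ≤ I := by
    refine le_of_forall_pos_le_add fun ε hε => ?_
    set η : ℝ := ε / ((volume Ω).toReal + 1) with hη
    have hη0 : 0 < η := by positivity
    have h1 : ∀ᶠ ρ in 𝓝 v0, L v0 - η < L ρ := hLc.eventually (lt_mem_nhds (by linarith))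
    obtain ⟨δ, hδ, h2⟩ := Metric.eventually_nhds_iff.1 h1
    obtain ⟨ρ, h3, h4⟩ := exists_between (show max (v0 / 2) (v0 - δ) < v0 from
      max_lt (by linarith) (by linarith))
    obtain ⟨A, B, D⟩ := hd ρ (lt_of_le_of_lt ((by positivity : (0 : ℝ) ≤ v0 / 2).trans
      (le_max_left _ _)) h3)
    have h5 := h2 (y := ρ) (by
      rw [Real.dist_eq, abs_of_nonpos (by linarith)]
      have := (le_max_right (v0 / 2) (v0 - δ)).trans_lt h3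
      linarith)
    have h6 := hLle ρ A B ((le_max_left _ _).trans_lt h3) h4 D
    have h7 := (key ρ A B h4 D).2
    have h8 := mul_le_mul_of_nonneg_right (h5.le.trans h6) hvol
    rw [hL0] at h8
    have h9 : η * (volume Ω).toReal ≤ ε := by
      rw [hη, div_mul_eq_mul_div, div_le_iff₀ (by positivity)]
      nlinarith
    linarith
  exact hgoal

theorem gf_sv (a b : ℝ → ℝ) (F : ℂ × ℂ) :
    gf a b F = a (‖F.1‖ - ‖F.2‖) * (‖F.1‖ + ‖F.2‖) + b (‖F.1‖ - ‖F.2‖) := rfl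

theorem wv_sv (h f : ℝ → ℝ) (F : ℂ × ℂ) :
    wv h f F = h ((‖F.1‖ + ‖F.2‖) / (‖F.1‖ - ‖F.2‖))
      + f ((‖F.1‖ + ‖F.2‖) * (‖F.1‖ - ‖F.2‖)) := by
  unfold wv Rt Dt
  congr 2
  ring

/-- the theorem in complex notation -/
theorem main_c {h f : ℝ → ℝ} (hR : RCp (wv h f)) {F₀ : Matrix (Fin 2) (Fin 2) ℝ}
    {Ω : Set (Fin 2 → ℝ)} {ϑ : (Fin 2 → ℝ) → (Fin 2 → ℝ)} (ht : Tm Ω ϑ)
    (hF : ‖(cab F₀).2‖ < ‖(cab F₀).1‖)
    (hpos : ∀ᵐ x ∂(volume.restrict Ω), ‖(T F₀ (fderiv ℝ ϑ x)).2‖ < ‖(T F₀ (fderiv ℝ ϑ x)).1‖)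
    (hfin : ∫⁻ x in Ω, ENNReal.ofReal (wv h f (T F₀ (fderiv ℝ ϑ x))) ≠ ⊤) :
    IntegrableOn (fun x => wv h f (T F₀ (fderiv ℝ ϑ x))) Ω ∧
      wv h f (cab F₀) * (volume Ω).toReal ≤ ∫ x in Ω, wv h f (T F₀ (fderiv ℝ ϑ x)) := by
  obtain ⟨c, hk, hRc⟩ := split hR
  set v0 : ℝ := ‖(cab F₀).1‖ - ‖(cab F₀).2‖ with hv0
  set s0 : ℝ := ‖(cab F₀).1‖ + ‖(cab F₀).2‖ with hs0
  have hv0p : 0 < v0 := by rw [hv0]; linarith
  have hvs : v0 ≤ s0 := by rw [hv0, hs0]; linarith [norm_nonneg (cab F₀).2]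
  have hs0p : 0 < s0 := by linarith
  obtain ⟨β, hβ⟩ := Pool.Agent.Y273.VI.sub_grad_on hk isOpen_Ioi
    (mem_Ioi.2 (mul_pos hs0p hv0p) : s0 * v0 ∈ Ioi (0 : ℝ))
  obtain ⟨a, b, hdat, hle, heq⟩ := supp hRc hv0p hvs β
  set γ : ℝ := f (s0 * v0) - c * Real.log (s0 * v0) - β * (s0 * v0) with hγ
  -- the support
  have hle' : ∀ F : ℂ × ℂ, ‖F.2‖ < ‖F.1‖ → gf a b F + γ ≤ wv h f F := by
    intro F hFp
    rw [gf_sv, wv_sv]
    have hv : 0 < ‖F.1‖ - ‖F.2‖ := by linarith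
    have hs : ‖F.1‖ - ‖F.2‖ ≤ ‖F.1‖ + ‖F.2‖ := by linarith [norm_nonneg F.2]
    have h1 := hle _ _ hv hs
    have h2 := hβ ((‖F.1‖ + ‖F.2‖) * (‖F.1‖ - ‖F.2‖)) (mem_Ioi.2 (mul_pos (by linarith) hv))
    rw [hγ]
    linarith
  have heq' : gf a b (cab F₀) + γ = wv h f (cab F₀) := by
    rw [gf_sv, wv_sv, ← hv0, ← hs0, heq, hγ]
    ring
  -- measurability
  have hP : IsOpen {F : ℂ × ℂ | ‖F.2‖ < ‖F.1‖} := isOpen_lt (by fun_prop) (by fun_prop)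
  have hm : AEStronglyMeasurable (fun x => wv h f (T F₀ (fderiv ℝ ϑ x))) (volume.restrict Ω) := by
    have hc : ContinuousOn (wv h f) {F : ℂ × ℂ | ‖F.2‖ < ‖F.1‖} := cont_wv (cont_h hR) (cont_f hR)
    classical
    have hm := ContinuousOn.measurable_piecewise hc
      (continuousOn_const (c := (0 : ℝ)) (s := {F : ℂ × ℂ | ‖F.2‖ < ‖F.1‖}ᶜ)) hP.measurableSet
    have hm2 := (hm.comp (T_meas F₀ ϑ)).aestronglyMeasurable (μ := volume.restrict Ω)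
    refine hm2.congr ?_
    filter_upwards [hpos] with x hx
    have hx' : T F₀ (fderiv ℝ ϑ x) ∈ {F : ℂ × ℂ | ‖F.2‖ < ‖F.1‖} := hx
    simp only [Function.comp]
    rw [Set.piecewise_eq_of_mem _ _ _ hx']
  -- the positive part of the support
  have hconst : ∫⁻ _ in Ω, ENNReal.ofReal (-γ) ≠ ⊤ := by
    rw [setLIntegral_const]
    exact ENNReal.mul_ne_top ENNReal.ofReal_ne_top ht.fin.ne
  have hfin2 : ∫⁻ x in Ω, ENNReal.ofReal (gf a b (T F₀ (fderiv ℝ ϑ x))) ≠ ⊤ := by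
    have h1 : ∫⁻ x in Ω, ENNReal.ofReal (gf a b (T F₀ (fderiv ℝ ϑ x)))
        ≤ ∫⁻ x in Ω, (ENNReal.ofReal (wv h f (T F₀ (fderiv ℝ ϑ x))) + ENNReal.ofReal (-γ)) := by
      refine lintegral_mono_ae ?_
      filter_upwards [hpos] with x hx
      refine (ENNReal.ofReal_le_ofReal ?_).trans ENNReal.ofReal_add_le
      have := hle' _ hx
      linarith
    rw [lintegral_add_right _ measurable_const] at h1
    exact ne_top_of_le_ne_top (ENNReal.add_ne_top.2 ⟨hfin, hconst⟩) h1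
  obtain ⟨i1, i2⟩ := main_dat hdat ht hF hpos hfin2
  have iγ : IntegrableOn (fun _ : Fin 2 → ℝ => γ) Ω := integrableOn_const ht.fin.ne
  have i3 : IntegrableOn (fun x => gf a b (T F₀ (fderiv ℝ ϑ x)) + γ) Ω := i1.add iγ
  have hWp : Integrable (fun x => max (wv h f (T F₀ (fderiv ℝ ϑ x))) 0) (volume.restrict Ω) := by
    refine ⟨hm.sup aestronglyMeasurable_const, ?_⟩
    have hp0 : 0 ≤ᵐ[volume.restrict Ω] fun x => max (wv h f (T F₀ (fderiv ℝ ϑ x))) 0 :=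
      Eventually.of_forall fun x => le_max_right _ _
    rw [hasFiniteIntegral_iff_ofReal hp0]
    have e : ∀ x, ENNReal.ofReal (max (wv h f (T F₀ (fderiv ℝ ϑ x))) 0)
        = ENNReal.ofReal (wv h f (T F₀ (fderiv ℝ ϑ x))) := by
      intro x
      rcases le_total (wv h f (T F₀ (fderiv ℝ ϑ x))) 0 with h1 | h1
      · rw [max_eq_right h1, ENNReal.ofReal_of_nonpos h1, ENNReal.ofReal_zero]
      · rw [max_eq_left h1]
    simp only [e]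
    exact lt_top_iff_ne_top.2 hfin
  have hWi : Integrable (fun x => wv h f (T F₀ (fderiv ℝ ϑ x))) (volume.restrict Ω) := by
    refine Integrable.mono' (hWp.add i3.abs) hm ?_
    filter_upwards [hpos] with x hx
    have h0 := hle' _ hx
    rw [Real.norm_eq_abs, Pi.add_apply]
    rcases le_total 0 (wv h f (T F₀ (fderiv ℝ ϑ x))) with h1 | h1
    · rw [abs_of_nonneg h1]
      have := le_max_left (wv h f (T F₀ (fderiv ℝ ϑ x))) 0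
      have := abs_nonneg (gf a b (T F₀ (fderiv ℝ ϑ x)) + γ)
      linarith
    · rw [abs_of_nonpos h1]
      have := le_max_right (wv h f (T F₀ (fderiv ℝ ϑ x))) 0
      have := neg_abs_le (gf a b (T F₀ (fderiv ℝ ϑ x)) + γ)
      linarith
  refine ⟨hWi, ?_⟩
  have h1 : ∫ x in Ω, (gf a b (T F₀ (fderiv ℝ ϑ x)) + γ)
      ≤ ∫ x in Ω, wv h f (T F₀ (fderiv ℝ ϑ x)) := by
    refine integral_mono_ae i3 hWi ?_
    filter_upwards [hpos] with x hx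
    exact hle' _ hx
  have h2 : ∫ x in Ω, (gf a b (T F₀ (fderiv ℝ ϑ x)) + γ)
      = (∫ x in Ω, gf a b (T F₀ (fderiv ℝ ϑ x))) + (volume Ω).toReal * γ := by
    rw [integral_add i1 iγ, setIntegral_const, smul_eq_mul, Measure.real]
  rw [← heq', add_mul]
  rw [h2] at h1
  linarith

open scoped Matrix.Norms.L2Operator in
theorem W_eq2 (h f : ℝ → ℝ) (A : Matrix (Fin 2) (Fin 2) ℝ) (hA : 0 < A.det) :
    h (‖A‖ ^ 2 / A.det) + f A.det = wv h f (cab A) := by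
  obtain ⟨h1, h2⟩ := Pool.Agent.W74.MQ.OPN.main A
  have hc := (det_cab A).1 hA
  rw [h1, h2]
  unfold wv Rt Dt
  congr 2
  have n2 := norm_nonneg (cab A).2
  have h3 : ‖(cab A).1‖ - ‖(cab A).2‖ ≠ 0 := by linarith
  have h4 : ‖(cab A).1‖ + ‖(cab A).2‖ ≠ 0 := by linarith
  have h5 : ‖(cab A).1‖ ^ 2 - ‖(cab A).2‖ ^ 2
      = (‖(cab A).1‖ + ‖(cab A).2‖) * (‖(cab A).1‖ - ‖(cab A).2‖) := by ring
  rw [h5, sq, mul_div_mul_left _ _ h4]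

open scoped Matrix.Norms.L2Operator in
/-- the theorem for matrices -/
theorem vi_main (h f : ℝ → ℝ) (W : Matrix (Fin 2) (Fin 2) ℝ → ℝ)
    (hW : ∀ A : Matrix (Fin 2) (Fin 2) ℝ, 0 < A.det → W A = h (‖A‖ ^ 2 / A.det) + f A.det)
    (hR : Rp W) (F₀ : Matrix (Fin 2) (Fin 2) ℝ) (h0 : 0 < F₀.det) {Ω : Set (Fin 2 → ℝ)}
    {ϑ : (Fin 2 → ℝ) → (Fin 2 → ℝ)} (ht : Tm Ω ϑ)
    (hpos : ∀ᵐ x ∂(volume.restrict Ω), 0 < (F₀ + LinearMap.toMatrix'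
      ((fderiv ℝ ϑ x : (Fin 2 → ℝ) →L[ℝ] (Fin 2 → ℝ)) :
        (Fin 2 → ℝ) →ₗ[ℝ] (Fin 2 → ℝ))).det)
    (hfin : ∫⁻ x in Ω, ENNReal.ofReal (W (F₀ + LinearMap.toMatrix'
      ((fderiv ℝ ϑ x : (Fin 2 → ℝ) →L[ℝ] (Fin 2 → ℝ)) :
        (Fin 2 → ℝ) →ₗ[ℝ] (Fin 2 → ℝ)))) ≠ ⊤) :
    IntegrableOn (fun x => W (F₀ + LinearMap.toMatrix'
      ((fderiv ℝ ϑ x : (Fin 2 → ℝ) →L[ℝ] (Fin 2 → ℝ)) :
        (Fin 2 → ℝ) →ₗ[ℝ] (Fin 2 → ℝ)))) Ω ∧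
    W F₀ * (volume Ω).toReal ≤ ∫ x in Ω, W (F₀ + LinearMap.toMatrix'
      ((fderiv ℝ ϑ x : (Fin 2 → ℝ) →L[ℝ] (Fin 2 → ℝ)) :
        (Fin 2 → ℝ) →ₗ[ℝ] (Fin 2 → ℝ))) := by
  have hW' : ∀ A : Matrix (Fin 2) (Fin 2) ℝ, 0 < A.det → W A = wv h f (cab A) := by
    intro A hA
    rw [hW A hA, W_eq2 h f A hA]
  have hRc : RCp (wv h f) := RCp_of hW' hR
  have hpos' : ∀ᵐ x ∂(volume.restrict Ω),
      ‖(T F₀ (fderiv ℝ ϑ x)).2‖ < ‖(T F₀ (fderiv ℝ ϑ x)).1‖ := by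
    filter_upwards [hpos] with x hx
    exact (det_cab _).1 hx
  have hev : (fun x => W (F₀ + LinearMap.toMatrix'
      ((fderiv ℝ ϑ x : (Fin 2 → ℝ) →L[ℝ] (Fin 2 → ℝ)) :
        (Fin 2 → ℝ) →ₗ[ℝ] (Fin 2 → ℝ)))) =ᵐ[volume.restrict Ω]
      fun x => wv h f (T F₀ (fderiv ℝ ϑ x)) := by
    filter_upwards [hpos] with x hx
    exact hW' _ hx
  have hfin' : ∫⁻ x in Ω, ENNReal.ofReal (wv h f (T F₀ (fderiv ℝ ϑ x))) ≠ ⊤ := by
    have e := lintegral_congr_ae (hev.fun_comp ENNReal.ofReal)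
    simp only [Function.comp] at e
    rw [← e]
    exact hfin
  obtain ⟨h1, h2⟩ := main_c hRc ht ((det_cab F₀).1 h0) hpos' hfin'
  refine ⟨h1.congr_fun_ae hev.symm, ?_⟩
  rw [integral_congr_ae hev, hW' F₀ h0]
  exact h2

end Pool.Agent.R222.VI
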