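import Pool.Agent.R222.VI.Red

/-! # The reduction to a logarithmic volumetric part -/

set_option autoImplicit false

namespace Pool.Agent.R222.VI

open MeasureTheory Set Filter Topology
open Pool.Agent.Y273.VI (RCp)

theorem mid {w : ℂ × ℂ → ℝ} (hR : RCp w) {F H : ℂ × ℂ} (hH : ‖H.1‖ = ‖H.2‖) (h1 : Pos (F - H))
    (h2 : Pos (F + H)) : 2 * w F ≤ w (F - H) + w (F + H) := by
  have e : F - H + (2 : ℝ) • H = F + H := by rw [two_smul]; abel
  have e2 : F - H + (1 / 2 : ℝ) • ((2 : ℝ) • H) = F := by rw [smul_smul]; norm_num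
  have h := hR (F - H) ((2 : ℝ) • H) (by simp only [Prod.smul_fst, Prod.smul_snd, norm_smul, hH])
    h1 (by rw [e]; exact h2) (1 / 2) (by norm_num) (by norm_num)
  rw [e, e2] at h
  linarith

theorem cont_wv {h f : ℝ → ℝ} (hh : ContinuousOn h (Ici 1)) (hf : ContinuousOn f (Ioi 0)) :
    ContinuousOn (wv h f) {F | Pos F} := by
  have h1 : ContinuousOn Rt {F | Pos F} := by
    unfold Rt
    apply ContinuousOn.div
    · exact Continuous.continuousOn (by fun_prop)
    · exact Continuous.continuousOn (by fun_prop)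
    · intro F hF
      have hF' : ‖F.2‖ < ‖F.1‖ := hF
      linarith
  have h2 : ContinuousOn Dt {F | Pos F} := by
    unfold Dt
    exact Continuous.continuousOn (by fun_prop)
  exact (hh.comp h1 fun F hF => Rt_ge hF).add (hf.comp h2 fun F hF => Dt_pos.1 hF)

theorem dich {h f : ℝ → ℝ} (hR : RCp (wv h f)) (c : ℝ) :
    ConvexOn ℝ (Ioi 0) (fun z => f z - c * Real.log z) ∨ RCp (wv h (fun z => c * Real.log z)) := by
  by_cases hcx : ∀ x ∈ Ioi (0 : ℝ), ∀ y ∈ Ioi (0 : ℝ), x < y → ∀ a b : ℝ, 0 < a → 0 < b →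
      a + b = 1 → (fun z => f z - c * Real.log z) (a • x + b • y)
        ≤ a • (fun z => f z - c * Real.log z) x + b • (fun z => f z - c * Real.log z) y
  · left
    exact LinearOrder.convexOn_of_lt (convex_Ioi 0) fun x hx y hy hxy a b ha hb hab =>
      hcx x hx y hy hxy a b ha hb hab
  right
  push Not at hcx
  obtain ⟨x, hx, y, hy, hxy, a, b, ha, hb, hab, hlt⟩ := hcx
  have hx0 : (0 : ℝ) < x := hx
  simp only [smul_eq_mul] at hlt
  set g : ℝ → ℝ := fun z => f z - c * Real.log z with hg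
  have hlt' : a * g x + b * g y < g (a * x + b * y) := hlt
  -- the chord
  set k : ℝ := (g y - g x) / (y - x) with hk
  have hky : k * (y - x) = g y - g x := by
    rw [hk]; exact div_mul_cancel₀ _ (by linarith)
  set φ : ℝ → ℝ := fun z => g z - (g x + k * (z - x)) with hφ
  have hfc := cont_f hR
  have hgc : ContinuousOn g (Ioi 0) := by
    refine hfc.sub (continuousOn_const.mul ?_)
    exact Real.continuousOn_log.mono fun z hz => (ne_of_gt (mem_Ioi.1 hz))
  have hIcc : Icc x y ⊆ Ioi 0 := fun z hz => mem_Ioi.2 (hx0.trans_le hz.1)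
  have hφc : ContinuousOn φ (Icc x y) :=
    (hgc.mono hIcc).sub (Continuous.continuousOn (by fun_prop))
  obtain ⟨z, hz, hmax⟩ := isCompact_Icc.exists_isMaxOn (⟨x, ⟨le_rfl, hxy.le⟩⟩ : (Icc x y).Nonempty)
    hφc
  have hφx : φ x = 0 := by simp only [hφ]; ring
  have hφy : φ y = 0 := by simp only [hφ]; rw [hky]; ring
  have ha' : a = 1 - b := by linarith
  have hp : a * x + b * y ∈ Icc x y := by
    rw [ha']
    constructor <;> nlinarith
  have hφp : 0 < φ (a * x + b * y) := by
    simp only [hφ]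
    have e : k * (a * x + b * y - x) = b * (g y - g x) := by
      rw [← hky, ha']; ring
    rw [e]
    rw [ha'] at hlt' ⊢
    linarith
  have hφz : 0 < φ z := hφp.trans_le (hmax hp)
  have hzx : x < z := by
    rcases eq_or_lt_of_le hz.1 with h1 | h1
    · rw [← h1, hφx] at hφz; exact absurd hφz (lt_irrefl 0)
    · exact h1
  have hzy : z < y := by
    rcases eq_or_lt_of_le hz.2 with h1 | h1
    · rw [h1, hφy] at hφz; exact absurd hφz (lt_irrefl 0)
    · exact h1
  have hz0 : 0 < z := hx0.trans hzx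
  obtain ⟨ρ0, hρ0, hρ1, hρx, hρy⟩ : ∃ ρ0 : ℝ, 0 < ρ0 ∧ ρ0 < 1 ∧ x ≤ z * (1 - ρ0) ∧
      z * (1 + ρ0) ≤ y := by
    refine ⟨min ((z - x) / z) ((y - z) / z), lt_min (div_pos (by linarith) hz0)
      (div_pos (by linarith) hz0), ?_, ?_, ?_⟩
    · refine (min_le_left _ _).trans_lt ?_
      rw [div_lt_one hz0]; linarith
    · have := mul_le_mul_of_nonneg_left (min_le_left ((z - x) / z) ((y - z) / z)) hz0.le
      rw [mul_div_cancel₀ _ hz0.ne'] at this
      linarith
    · have := mul_le_mul_of_nonneg_left (min_le_right ((z - x) / z) ((y - z) / z)) hz0.le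
      rw [mul_div_cancel₀ _ hz0.ne'] at this
      linarith
  have key : ∀ ρ : ℝ, |ρ| ≤ ρ0 → g (z * (1 - ρ)) + g (z * (1 + ρ)) ≤ 2 * g z := by
    intro ρ hρ
    rw [abs_le] at hρ
    have h1 : z * (1 - ρ) ∈ Icc x y := by constructor <;> nlinarith
    have h2 : z * (1 + ρ) ∈ Icc x y := by constructor <;> nlinarith
    have h3 : φ (z * (1 - ρ)) ≤ φ z := hmax h1
    have h4 : φ (z * (1 + ρ)) ≤ φ z := hmax h2
    simp only [hφ] at h3 h4
    linarith
  -- rank-one convexity
  intro F H hH hF hFH t ht0 ht1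
  have hPos : ∀ τ ∈ Icc (0 : ℝ) 1, Pos (F + τ • H) := by
    intro τ hτ
    rw [Dt_pos, Dt_line F H hH]
    have h1 := Dt_pos.1 (show Pos F from hF)
    have h2 := Dt_pos.1 (show Pos (F + H) from hFH)
    rcases eq_or_lt_of_le hτ.1 with h3 | h3
    · rw [← h3]; linarith
    · have := mul_pos h3 h2
      have := mul_nonneg (sub_nonneg.2 hτ.2) h1.le
      linarith
  set w : ℂ × ℂ → ℝ := wv h (fun z => c * Real.log z) with hw
  have hwc : ContinuousOn w {F | Pos F} := by
    refine cont_wv (cont_h hR) (continuousOn_const.mul ?_)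
    exact Real.continuousOn_log.mono fun z hz => (ne_of_gt (mem_Ioi.1 hz))
  have hmp := max_princ (ψ := fun τ => w (F + τ • H) - ((1 - τ) * w F + τ * w (F + H))) ?_ ?_ ?_ ?_
    t ⟨ht0, ht1⟩
  · linarith
  · refine ContinuousOn.sub ?_ (Continuous.continuousOn (by fun_prop))
    exact hwc.comp (Continuous.continuousOn (by fun_prop)) hPos
  · simp
  · simp
  · intro τ hτ0 hτ1
    have hτm : τ ∈ Icc (0 : ℝ) 1 := ⟨hτ0.le, hτ1.le⟩
    have hDτ := Dt_pos.1 (hPos τ hτm)
    set D := Dt (F + τ • H) with hD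
    set D' := Dt (F + H) - Dt F with hD'
    set r := min (min τ (1 - τ)) (ρ0 * D / (|D'| + 1)) with hr
    have hr0 : 0 < r := lt_min (lt_min hτ0 (by linarith)) (by positivity)
    have hr1 : r ≤ τ := (min_le_left _ _).trans (min_le_left _ _)
    have hr2 : r ≤ 1 - τ := (min_le_left _ _).trans (min_le_right _ _)
    have hr3 : r ≤ ρ0 * D / (|D'| + 1) := min_le_right _ _
    have hr4 : r * (|D'| + 1) ≤ ρ0 * D := by
      rw [le_div_iff₀ (by positivity)] at hr3; exact hr3
    refine ⟨r, hr0, by linarith, by linarith, ?_⟩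
    set ρ := r * D' / D with hρ
    have hρa : |ρ| ≤ ρ0 := by
      rw [hρ, abs_div, abs_mul, abs_of_pos hDτ, abs_of_pos hr0, div_le_iff₀ hDτ]
      have := abs_nonneg D'
      nlinarith
    have hρD : ρ * D = r * D' := by rw [hρ]; exact div_mul_cancel₀ _ hDτ.ne'
    have hm1 : τ - r ∈ Icc (0 : ℝ) 1 := ⟨by linarith, by linarith⟩
    have hm2 : τ + r ∈ Icc (0 : ℝ) 1 := ⟨by linarith, by linarith⟩
    have hDm : Dt (F + (τ - r) • H) = D * (1 - ρ) := by
      have : D * (1 - ρ) = D - r * D' := by rw [← hρD]; ring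
      rw [this, hD, Dt_line F H hH, Dt_line F H hH, hD']; ring
    have hDp : Dt (F + (τ + r) • H) = D * (1 + ρ) := by
      have : D * (1 + ρ) = D + r * D' := by rw [← hρD]; ring
      rw [this, hD, Dt_line F H hH, Dt_line F H hH, hD']; ring
    -- scaling
    set l := Real.sqrt (z / D) with hl
    have hl0 : 0 < l := Real.sqrt_pos.2 (div_pos hz0 hDτ)
    have hl2 : l ^ 2 = z / D := Real.sq_sqrt (div_pos hz0 hDτ).le
    have hl3 : l ^ 2 * D = z := by rw [hl2]; exact div_mul_cancel₀ _ hDτ.ne'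
    have e1 : l • (F + τ • H) - (l * r) • H = l • (F + (τ - r) • H) := by
      simp only [smul_add, sub_smul, smul_sub, smul_smul]
      abel
    have e2 : l • (F + τ • H) + (l * r) • H = l • (F + (τ + r) • H) := by
      simp only [smul_add, add_smul, smul_smul]
      abel
    have hmid := mid hR (F := l • (F + τ • H)) (H := (l * r) • H)
      (by simp only [Prod.smul_fst, Prod.smul_snd, norm_smul, hH])
      (by rw [e1]; exact Pos_smul hl0 (hPos _ hm1)) (by rw [e2]; exact Pos_smul hl0 (hPos _ hm2))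
    rw [e1, e2] at hmid
    unfold wv at hmid
    rw [Rt_smul hl0, Rt_smul hl0, Rt_smul hl0, Dt_smul, Dt_smul, Dt_smul, hDm, hDp, ← hD,
      ← mul_assoc, ← mul_assoc, hl3] at hmid
    have hkey := key ρ hρa
    simp only [hg] at hkey
    rw [abs_le] at hρa
    have hρm : (0 : ℝ) < 1 - ρ := by linarith
    have hρp : (0 : ℝ) < 1 + ρ := by linarith
    rw [Real.log_mul hz0.ne' hρm.ne', Real.log_mul hz0.ne' hρp.ne'] at hkey
    simp only [hw]
    unfold wv
    simp only
    rw [hDm, hDp, ← hD, Real.log_mul hDτ.ne' hρm.ne', Real.log_mul hDτ.ne' hρp.ne']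
    have hh' : 2 * h (Rt (F + τ • H)) ≤ h (Rt (F + (τ - r) • H)) + h (Rt (F + (τ + r) • H))
        + c * (Real.log (1 - ρ) + Real.log (1 + ρ)) := by linarith
    clear_value D D' r ρ l w g φ k
    linarith

theorem log_gap : 0 < 2 * Real.log 2 - Real.log 3 := by
  have : Real.log 3 < Real.log (2 ^ 2) := Real.log_lt_log (by norm_num) (by norm_num)
  rw [Real.log_pow] at this
  push_cast at this
  linarith

/-- `f = c log + k` with `k` convex, and `h(K) + c log δ` is rank-one convex -/
theorem split {h f : ℝ → ℝ} (hR : RCp (wv h f)) :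
    ∃ c : ℝ, ConvexOn ℝ (Ioi 0) (fun z => f z - c * Real.log z) ∧
      RCp (wv h (fun z => c * Real.log z)) := by
  set S : Set ℝ := {c | ConvexOn ℝ (Ioi 0) (fun z => f z - c * Real.log z)} with hS
  have hne : S.Nonempty := by
    by_contra hcon
    rw [Set.not_nonempty_iff_eq_empty] at hcon
    have hall : ∀ c, RCp (wv h (fun z => c * Real.log z)) := by
      intro c
      rcases dich hR c with h1 | h1
      · have : c ∈ S := h1
        rw [hcon] at this
        exact absurd this (Set.notMem_empty c)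
      · exact h1
    set c := (h 1 + h 3 - 2 * h 2 + 1) / (2 * Real.log 2 - Real.log 3) with hc
    have hcl : c * (2 * Real.log 2 - Real.log 3) = h 1 + h 3 - 2 * h 2 + 1 := by
      rw [hc]; exact div_mul_cancel₀ _ log_gap.ne'
    have h1 := (diag_conv (hall c) (v := 1) one_pos).2 (mem_Ici.2 (le_refl (1 : ℝ)))
      (mem_Ici.2 (show (1 : ℝ) ≤ 3 by norm_num)) (show (0 : ℝ) ≤ 1 / 2 by norm_num)
      (show (0 : ℝ) ≤ 1 / 2 by norm_num) (by norm_num)
    have e : (1 / 2 : ℝ) • (1 : ℝ) + (1 / 2 : ℝ) • (3 : ℝ) = 2 := by norm_num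
    rw [e] at h1
    have d1 := diag_val (s := 1) (v := 1) one_pos le_rfl
    have d2 := diag_val (s := 2) (v := 1) one_pos (by norm_num)
    have d3 := diag_val (s := 3) (v := 1) one_pos (by norm_num)
    unfold wv at h1
    simp only at h1
    rw [d1.2.1, d1.2.2, d2.2.1, d2.2.2, d3.2.1, d3.2.2] at h1
    simp only [div_one, mul_one, Real.log_one, mul_zero, smul_eq_mul, add_zero] at h1
    linarith
  have hbd : BddBelow S := by
    refine ⟨-(f 1 + f 3 - 2 * f 2) / (2 * Real.log 2 - Real.log 3), fun c hc => ?_⟩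
    rw [div_le_iff₀ log_gap]
    have h1 := hc.2 (mem_Ioi.2 (show (0 : ℝ) < 1 by norm_num))
      (mem_Ioi.2 (show (0 : ℝ) < 3 by norm_num)) (show (0 : ℝ) ≤ 1 / 2 by norm_num)
      (show (0 : ℝ) ≤ 1 / 2 by norm_num) (by norm_num)
    have e : (1 / 2 : ℝ) • (1 : ℝ) + (1 / 2 : ℝ) • (3 : ℝ) = 2 := by norm_num
    rw [e] at h1
    simp only [Real.log_one, mul_zero, smul_eq_mul, sub_zero] at h1
    linarith
  refine ⟨sInf S, ?_, ?_⟩
  · refine ⟨convex_Ioi 0, fun x hx y hy a b ha hb hab => ?_⟩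
    have hcl : IsClosed {c : ℝ | f (a • x + b • y) - c * Real.log (a • x + b • y)
        ≤ a • (f x - c * Real.log x) + b • (f y - c * Real.log y)} := by
      simp only [smul_eq_mul]
      exact isClosed_le (by fun_prop) (by fun_prop)
    have hsub : S ⊆ {c : ℝ | f (a • x + b • y) - c * Real.log (a • x + b • y)
        ≤ a • (f x - c * Real.log x) + b • (f y - c * Real.log y)} := fun c hc =>
      hc.2 hx hy ha hb hab
    exact closure_minimal hsub hcl (csInf_mem_closure hne hbd)
  · intro F H hH hF hFH t ht0 ht1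
    have hcl : IsClosed {c : ℝ | wv h (fun z => c * Real.log z) (F + t • H)
        ≤ (1 - t) * wv h (fun z => c * Real.log z) F + t * wv h (fun z => c * Real.log z) (F + H)} := by
      unfold wv
      exact isClosed_le (by fun_prop) (by fun_prop)
    have hsub : Iio (sInf S) ⊆ {c : ℝ | wv h (fun z => c * Real.log z) (F + t • H)
        ≤ (1 - t) * wv h (fun z => c * Real.log z) F
          + t * wv h (fun z => c * Real.log z) (F + H)} := by
      intro c hc
      have hc' : c < sInf S := hc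
      have hcS : c ∉ S := notMem_of_lt_csInf hc' hbd
      rcases dich hR c with h1 | h1
      · exact absurd h1 hcS
      · exact h1 F H hH hF hFH t ht0 ht1
    exact closure_minimal hsub hcl (by rw [closure_Iio]; exact mem_Iic.2 le_rfl)

end Pool.Agent.R222.VI
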