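import Pool.Agent.R222.VI.Sup

/-! # The supports for a convex logarithmic part -/

set_option autoImplicit false

namespace Pool.Agent.R222.VI

open MeasureTheory Set Filter Topology
open Pool.Agent.Y273.VI (RCp Dat sub_grad_on deriv_nonneg')

variable {h : ℝ → ℝ} {c : ℝ}

theorem val_of_norm {F : ℂ × ℂ} {s v : ℝ} (h1 : ‖F.1‖ = (s + v) / 2) (h2 : ‖F.2‖ = (s - v) / 2) :
    Rt F = s / v ∧ Dt F = s * v := by
  constructor
  · unfold Rt
    rw [h1, h2]
    congr 1 <;> ring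
  · unfold Dt
    rw [h1, h2]
    ring

/-- the special segment -/
theorem seg_ex {s0 v0 s1 v1 : ℝ} (hv0 : 0 < v0) (hs0 : v0 ≤ s0) (hv1 : 0 < v1) (hs1 : v1 ≤ s1)
    (hopp : (s1 - s0) * (v1 - v0) ≤ 0) : ∃ H : ℂ × ℂ, ‖H.1‖ = ‖H.2‖ ∧
      H.2 = ((((s1 - v1) / 2 - (s0 - v0) / 2 : ℝ)) : ℂ) ∧
      ‖(((s0 + v0) / 2 : ℝ) : ℂ) + H.1‖ = (s1 + v1) / 2 := by
  set x0 := (s0 + v0) / 2 with hx0
  set y0 := (s0 - v0) / 2 with hy0
  set x1 := (s1 + v1) / 2 with hx1
  set y1 := (s1 - v1) / 2 with hy1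
  have hx0p : 0 < x0 := by rw [hx0]; linarith
  have hx1p : 0 < x1 := by rw [hx1]; linarith
  have hy0n : 0 ≤ y0 := by rw [hy0]; linarith
  have hy1n : 0 ≤ y1 := by rw [hy1]; linarith
  set d := y1 - y0 with hd
  set p := (x1 ^ 2 + x0 ^ 2 - d ^ 2) / (2 * x0) with hp
  have hp2 : 2 * x0 * p = x1 ^ 2 + x0 ^ 2 - d ^ 2 := by
    rw [hp]; field_simp
  have hA : (x1 - x0) ^ 2 ≤ d ^ 2 := by
    have : (x1 - x0) ^ 2 - d ^ 2 = (s1 - s0) * (v1 - v0) := by
      rw [hd, hx0, hx1, hy0, hy1]; ring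
    linarith
  have hB : d ^ 2 ≤ (x1 + x0) ^ 2 := by
    have h1 : |d| ≤ x1 + x0 := by
      rw [abs_le]
      constructor
      · rw [hd, hy0, hy1, hx0, hx1]; linarith
      · rw [hd, hy0, hy1, hx0, hx1]; linarith
    have := pow_le_pow_left₀ (abs_nonneg d) h1 2
    rwa [sq_abs] at this
  have hpx : p ^ 2 ≤ x1 ^ 2 := by
    have h1 : p ≤ x1 := by nlinarith
    have h2 : -x1 ≤ p := by nlinarith
    nlinarith
  set q := Real.sqrt (x1 ^ 2 - p ^ 2) with hq
  have hq2 : q ^ 2 = x1 ^ 2 - p ^ 2 := Real.sq_sqrt (by linarith)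
  refine ⟨(⟨p - x0, q⟩, ((d : ℝ) : ℂ)), ?_, rfl, ?_⟩
  · simp only
    rw [Complex.norm_real, Real.norm_eq_abs, Complex.norm_def, Complex.normSq_mk,
      ← Real.sqrt_sq_eq_abs]
    congr 1
    nlinarith
  · rw [Complex.norm_def, Complex.normSq_apply]
    simp only [Complex.add_re, Complex.ofReal_re, Complex.add_im, Complex.ofReal_im]
    rw [Real.sqrt_eq_iff_mul_self_eq (by nlinarith [mul_self_nonneg (x0 + (p - x0)), mul_self_nonneg (0 + q)])
      hx1p.le]
    nlinarith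

theorem special (hR : RCp (wv h (fun z => c * Real.log z))) {s0 v0 s1 v1 a : ℝ} (hv0 : 0 < v0)
    (hs0 : v0 ≤ s0) (hv1 : 0 < v1) (hs1 : v1 ≤ s1) (hopp : (s1 - s0) * (v1 - v0) ≤ 0)
    (ha : ∀ K, 1 ≤ K → h (s0 / v0) + c * Real.log (s0 / v0) + a * (K - s0 / v0)
      ≤ h K + c * Real.log K) :
    h (s0 / v0) + c * Real.log (s0 * v0)
      + 2 * (a * s0 - c * v0) / (v0 * (s0 + v0)) * ((s1 - v1) - (s0 - v0))
      + -(a * (s0 - v0) - 2 * c * v0) / (v0 ^ 2 * (s0 + v0)) * (s1 * v1 - s0 * v0)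
      ≤ h (s1 / v1) + c * Real.log (s1 * v1) := by
  obtain ⟨H, hH, hH2, hH1⟩ := seg_ex hv0 hs0 hv1 hs1 hopp
  set F : ℂ × ℂ := ((((s0 + v0) / 2 : ℝ) : ℂ), (((s0 - v0) / 2 : ℝ) : ℂ)) with hF
  obtain ⟨n1, n2⟩ := diag_norm hv0.le hs0
  have hF0 := val_of_norm (F := F) n1 n2
  have hFH1 : ‖(F + H).1‖ = (s1 + v1) / 2 := hH1
  have hFt2 : ∀ t : ℝ, (F + t • H).2
      = (((s0 - v0) / 2 + t * ((s1 - v1) / 2 - (s0 - v0) / 2) : ℝ) : ℂ) := by
    intro t
    simp only [Prod.snd_add, Prod.smul_snd, hH2, Complex.real_smul, hF]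
    push_cast
    ring
  have hYn : ∀ t : ℝ, 0 ≤ t → t ≤ 1 →
      0 ≤ (s0 - v0) / 2 + t * ((s1 - v1) / 2 - (s0 - v0) / 2) := by
    intro t h0 h1
    have e : (s0 - v0) / 2 + t * ((s1 - v1) / 2 - (s0 - v0) / 2)
        = (1 - t) * ((s0 - v0) / 2) + t * ((s1 - v1) / 2) := by ring
    rw [e]
    have := mul_nonneg (sub_nonneg.2 h1) (show 0 ≤ (s0 - v0) / 2 by linarith)
    have := mul_nonneg h0 (show 0 ≤ (s1 - v1) / 2 by linarith)
    linarith
  have hn2 : ∀ t : ℝ, 0 ≤ t → t ≤ 1 → ‖(F + t • H).2‖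
      = (s0 - v0) / 2 + t * ((s1 - v1) / 2 - (s0 - v0) / 2) := by
    intro t h0 h1
    rw [hFt2, Complex.norm_real, Real.norm_of_nonneg (hYn t h0 h1)]
  have hFH2 : ‖(F + H).2‖ = (s1 - v1) / 2 := by
    have := hn2 1 zero_le_one le_rfl
    rw [one_smul] at this
    rw [this]; ring
  have hF1 := val_of_norm (F := F + H) hFH1 hFH2
  have hs0p : 0 < s0 := by linarith
  have hs1p : 0 < s1 := by linarith
  have hPF : Pos F := by rw [Dt_pos, hF0.2]; positivity
  have hPFH : Pos (F + H) := by rw [Dt_pos, hF1.2]; positivity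
  -- the tangent curve
  set x0 := (s0 + v0) / 2 with hx0
  set y0 := (s0 - v0) / 2 with hy0
  set d := (s1 - v1) / 2 - y0 with hd
  have hx0p : 0 < x0 := by rw [hx0]; linarith
  set g : ℝ → ℝ := fun t => (1 - t) * (s0 * v0) + t * (s1 * v1) + (y0 + t * d) ^ 2 with hg
  set X : ℝ → ℝ := fun t => Real.sqrt (g t) with hX
  set Y : ℝ → ℝ := fun t => y0 + t * d with hY
  have hg0 : g 0 = x0 ^ 2 := by simp only [hg, hx0, hy0]; ring
  have hX0 : X 0 = x0 := by simp only [hX]; rw [hg0, Real.sqrt_sq hx0p.le]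
  have hY0 : Y 0 = y0 := by simp only [hY]; ring
  set u0 := h (s0 / v0) + c * Real.log (s0 / v0) with hu0
  set T : ℝ → ℝ := fun t => u0 + a * ((X t + Y t) / (X t - Y t) - s0 / v0)
    + 2 * c * Real.log (X t - Y t) with hT
  have hxy : x0 - y0 = v0 := by rw [hx0, hy0]; ring
  have hxy' : x0 + y0 = s0 := by rw [hx0, hy0]; ring
  have hT0 : T 0 = h (s0 / v0) + c * Real.log (s0 * v0) := by
    simp only [hT]
    rw [hX0, hY0, hxy, hxy', log_sv hv0 hs0, hu0]
    ring
  -- the norms along the segment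
  have hDtt : ∀ t : ℝ, Dt (F + t • H) = (1 - t) * (s0 * v0) + t * (s1 * v1) := by
    intro t
    rw [Dt_line F H hH, hF0.2, hF1.2]
  have hn1 : ∀ t : ℝ, 0 ≤ t → t ≤ 1 → ‖(F + t • H).1‖ = X t := by
    intro t h0 h1
    have h2 := hDtt t
    unfold Dt at h2
    rw [hn2 t h0 h1] at h2
    simp only [hX, hg]
    rw [← h2]
    symm
    rw [Real.sqrt_eq_iff_mul_self_eq (by nlinarith [sq_nonneg ‖(F + t • H).1‖]) (norm_nonneg _)]
    ring
  have hlow : ∀ t : ℝ, 0 ≤ t → t ≤ 1 → T t ≤ wv h (fun z => c * Real.log z) (F + t • H) := by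
    intro t h0 h1
    have hD : 0 < Dt (F + t • H) := by
      rw [hDtt]
      rcases eq_or_lt_of_le h0 with h3 | h3
      · rw [← h3]
        have := mul_pos hs0p hv0
        linarith
      · have := mul_pos h3 (mul_pos hs1p hv1)
        have := mul_nonneg (sub_nonneg.2 h1) (mul_pos hs0p hv0).le
        linarith
    have hP := Dt_pos.2 hD
    have hP' : ‖(F + t • H).2‖ < ‖(F + t • H).1‖ := hP
    have h2 := ha (Rt (F + t • H)) (Rt_ge hP)
    have h3 : Dt (F + t • H) = (‖(F + t • H).1‖ + ‖(F + t • H).2‖)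
        * (‖(F + t • H).1‖ - ‖(F + t • H).2‖) := by unfold Dt; ring
    have h4 := log_sv (s := ‖(F + t • H).1‖ + ‖(F + t • H).2‖)
      (v := ‖(F + t • H).1‖ - ‖(F + t • H).2‖) (by linarith)
      (by linarith [norm_nonneg (F + t • H).2])
    rw [← h3] at h4
    have h5 : (‖(F + t • H).1‖ + ‖(F + t • H).2‖) / (‖(F + t • H).1‖ - ‖(F + t • H).2‖)
        = Rt (F + t • H) := rfl
    rw [h5] at h4
    have h6 : T t = u0 + a * (Rt (F + t • H) - s0 / v0)
        + 2 * c * Real.log (‖(F + t • H).1‖ - ‖(F + t • H).2‖) := by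
      unfold Rt
      rw [hn1 t h0 h1, hn2 t h0 h1]
    rw [h6]
    unfold wv
    simp only
    rw [h4]
    linarith
  -- the derivative
  have hgd : HasDerivAt g (s1 * v1 - s0 * v0 + 2 * y0 * d) 0 := by
    have h1 : HasDerivAt (fun t : ℝ => (1 - t) * (s0 * v0)) (-(s0 * v0)) 0 := by
      have := ((hasDerivAt_id (0 : ℝ)).const_sub 1).mul_const (s0 * v0)
      exact this.congr_deriv (by ring)
    have h2 : HasDerivAt (fun t : ℝ => t * (s1 * v1)) (s1 * v1) 0 := by
      have := (hasDerivAt_id (0 : ℝ)).mul_const (s1 * v1)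
      exact this.congr_deriv (by ring)
    have h3 : HasDerivAt (fun t : ℝ => y0 + t * d) d 0 := by
      have := ((hasDerivAt_id (0 : ℝ)).mul_const d).const_add y0
      exact this.congr_deriv (by ring)
    have h4 := h3.pow 2
    refine ((h1.add h2).add h4).congr_deriv ?_
    norm_num
    ring
  have hXd : HasDerivAt X ((s1 * v1 - s0 * v0 + 2 * y0 * d) / (2 * x0)) 0 := by
    have h1 := hgd.sqrt (by rw [hg0]; positivity)
    rw [hg0, Real.sqrt_sq hx0p.le] at h1
    exact h1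
  have hYd : HasDerivAt Y d 0 := by
    have := ((hasDerivAt_id (0 : ℝ)).mul_const d).const_add y0
    exact this.congr_deriv (by ring)
  set X' := (s1 * v1 - s0 * v0 + 2 * y0 * d) / (2 * x0) with hX'
  have hXY0 : X 0 - Y 0 = v0 := by rw [hX0, hY0, hxy]
  have hXY0' : X 0 + Y 0 = s0 := by rw [hX0, hY0, hxy']
  have hTd : HasDerivAt T (a * (((X' + d) * v0 - s0 * (X' - d)) / v0 ^ 2)
      + 2 * c * ((X' - d) / v0)) 0 := by
    have h1 := (hXd.add hYd).div (hXd.sub hYd) (by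
      change X 0 - Y 0 ≠ 0
      rw [hXY0]; exact hv0.ne')
    have h2 := (hXd.sub hYd).log (by
      change X 0 - Y 0 ≠ 0
      rw [hXY0]; exact hv0.ne')
    have h3 := ((h1.sub_const (s0 / v0)).const_mul a).const_add u0
    have h4 := h3.add (h2.const_mul (2 * c))
    refine h4.congr_deriv ?_
    simp only [Pi.add_apply, Pi.sub_apply]
    rw [hXY0, hXY0']
  have hfin := deriv_nonneg' (Φ := fun t => t * (wv h (fun z => c * Real.log z) (F + H)
      - wv h (fun z => c * Real.log z) F) - (T t - T 0))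
    (((hasDerivAt_id (0 : ℝ)).mul_const _).sub (hTd.sub_const (T 0))) (by simp) (by
      filter_upwards [Ioc_mem_nhdsGT (zero_lt_one' ℝ)] with t ht
      have h1 := hlow t ht.1.le ht.2
      have h2 := hR F H hH hPF hPFH t ht.1.le ht.2
      have h3 : T 0 = wv h (fun z => c * Real.log z) F := by
        rw [hT0]
        unfold wv
        rw [hF0.1, hF0.2]
      rw [h3]
      linarith)
  have hw0 : wv h (fun z => c * Real.log z) F = h (s0 / v0) + c * Real.log (s0 * v0) := by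
    unfold wv
    rw [hF0.1, hF0.2]
  have hw1 : wv h (fun z => c * Real.log z) (F + H) = h (s1 / v1) + c * Real.log (s1 * v1) := by
    unfold wv
    rw [hF1.1, hF1.2]
  rw [hw0, hw1] at hfin
  have halg : a * (((X' + d) * v0 - s0 * (X' - d)) / v0 ^ 2) + 2 * c * ((X' - d) / v0)
      = 2 * (a * s0 - c * v0) / (v0 * (s0 + v0)) * ((s1 - v1) - (s0 - v0))
      + -(a * (s0 - v0) - 2 * c * v0) / (v0 ^ 2 * (s0 + v0)) * (s1 * v1 - s0 * v0) := by
    have hsv : s0 + v0 ≠ 0 := by linarith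
    rw [hX', hd, hx0, hy0]
    field_simp
    ring
  linarith

/-- the supporting inequality for `c < 0` -/
theorem nineq (hR : RCp (wv h (fun z => c * Real.log z))) (hc : c < 0) {s0 v0 a : ℝ}
    (hv0 : 0 < v0) (hs0 : v0 < s0) (hac : a < -c)
    (ha : ∀ K, 1 ≤ K → h (s0 / v0) + c * Real.log (s0 / v0) + a * (K - s0 / v0)
      ≤ h K + c * Real.log K) {s v : ℝ} (hv : 0 < v) (hs : v ≤ s) :
    h (s0 / v0) + c * Real.log (s0 * v0)
      + 2 * (a * s0 - c * v0) / (v0 * (s0 + v0)) * ((s - v) - (s0 - v0))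
      + -(a * (s0 - v0) - 2 * c * v0) / (v0 ^ 2 * (s0 + v0)) * (s * v - s0 * v0)
      ≤ h (s / v) + c * Real.log (s * v) := by
  have hs0p : 0 < s0 := by linarith
  have hsp : 0 < s := by linarith
  have hK0 : 1 < s0 / v0 := by rw [lt_div_iff₀ hv0]; linarith
  have ha0 : 0 ≤ a * s0 - c * v0 := by
    have h1 := sub_neg hR hc hK0 ha
    have h2 := mul_nonneg h1 hv0.le
    have e : (a * (s0 / v0) - c) * v0 = a * s0 - c * v0 := by field_simp
    rwa [e] at h2
  set A := 2 * (a * s0 - c * v0) / (v0 * (s0 + v0)) with hA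
  set C := -(a * (s0 - v0) - 2 * c * v0) / (v0 ^ 2 * (s0 + v0)) with hC
  have hA0 : 0 ≤ A := by rw [hA]; positivity
  have hC1 : 0 < a * (s0 - v0) - 2 * c * v0 := by
    -- a s0 ≥ c v0
    have h1 : c * v0 * (s0 - v0) ≤ a * s0 * (s0 - v0) :=
      mul_le_mul_of_nonneg_right (by linarith) (by linarith)
    have h2 : 0 < -c * v0 * (s0 + v0) := by
      have : 0 < -c := by linarith
      positivity
    have h3 : 0 < s0 * (a * (s0 - v0) - 2 * c * v0) := by nlinarith
    exact (mul_pos_iff_of_pos_left hs0p).1 h3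
  have hC0 : C < 0 := by
    rw [hC, neg_div]
    have : 0 < (a * (s0 - v0) - 2 * c * v0) / (v0 ^ 2 * (s0 + v0)) := by positivity
    linarith
  have hE : -(2 * c) + A * (s0 - v0) + 2 * C * (s0 * v0) = 0 := by
    rw [hA, hC]
    field_simp
    ring
  have hE2 : A + 2 * C * v0 < 0 := by
    have e : A + 2 * C * v0 = 2 * (a + c) / (s0 + v0) := by
      rw [hA, hC]
      field_simp
      ring
    rw [e]
    apply div_neg_of_neg_of_pos <;> linarith
  -- the scaling factor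
  set q : ℝ → ℝ := fun l => -(2 * c) + A * (s - v) * l + 2 * C * (s * v) * l ^ 2 with hq
  have hqc : Continuous q := by fun_prop
  have hq1 : q (s0 / s) = (2 * C * s0 - A) * (v * (s0 / s) - v0) := by
    have h1 : (s0 / s) * s = s0 := div_mul_cancel₀ _ hsp.ne'
    have h2 : q (s0 / s) = -(2 * c) + A * (s0 / s * s - v * (s0 / s))
        + 2 * C * (s0 / s * s) * (v * (s0 / s)) := by simp only [hq]; ring
    rw [h2, h1]
    linear_combination hE
  have hq2 : q (v0 / v) = (A + 2 * C * v0) * (v0 / v * s - s0) := by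
    have h1 : (v0 / v) * v = v0 := div_mul_cancel₀ _ hv.ne'
    have h2 : q (v0 / v) = -(2 * c) + A * (v0 / v * s - v0 / v * v)
        + 2 * C * (v0 / v * v) * (v0 / v * s) := by simp only [hq]; ring
    rw [h2, h1]
    linear_combination hE
  have hneg : 2 * C * s0 - A < 0 := by nlinarith
  obtain ⟨l, hl0, hlo, hlq⟩ : ∃ l : ℝ, 0 < l ∧ (l * s - s0) * (l * v - v0) ≤ 0 ∧ q l = 0 := by
    rcases le_total (s0 / s) (v0 / v) with hle | hle
    · have h1 : 0 ≤ q (s0 / s) := by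
        rw [hq1]
        apply mul_nonneg_of_nonpos_of_nonpos hneg.le
        rw [le_div_iff₀ hv] at hle
        linarith
      have h2 : q (v0 / v) ≤ 0 := by
        rw [hq2]
        apply mul_nonpos_of_nonpos_of_nonneg hE2.le
        rw [div_le_iff₀ hsp] at hle
        linarith
      obtain ⟨l, hl, hlq⟩ := intermediate_value_Icc' hle hqc.continuousOn ⟨h2, h1⟩
      refine ⟨l, (div_pos hs0p hsp).trans_le hl.1, ?_, hlq⟩
      have h3 := hl.1
      have h4 := hl.2
      rw [div_le_iff₀ hsp] at h3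
      rw [le_div_iff₀ hv] at h4
      exact mul_nonpos_of_nonneg_of_nonpos (by linarith) (by linarith)
    · have h1 : q (s0 / s) ≤ 0 := by
        rw [hq1]
        apply mul_nonpos_of_nonpos_of_nonneg hneg.le
        rw [div_le_iff₀ hv] at hle
        linarith
      have h2 : 0 ≤ q (v0 / v) := by
        rw [hq2]
        apply mul_nonneg_of_nonpos_of_nonpos hE2.le
        rw [le_div_iff₀ hsp] at hle
        linarith
      obtain ⟨l, hl, hlq⟩ := intermediate_value_Icc' hle hqc.continuousOn ⟨h1, h2⟩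
      refine ⟨l, (div_pos hv0 hv).trans_le hl.1, ?_, hlq⟩
      have h3 := hl.1
      have h4 := hl.2
      rw [div_le_iff₀ hv] at h3
      rw [le_div_iff₀ hsp] at h4
      exact mul_nonpos_of_nonpos_of_nonneg (by linarith) (by linarith)
  have hsp1 := special hR (s0 := s0) (v0 := v0) (s1 := l * s) (v1 := l * v) (a := a) hv0 hs0.le
    (mul_pos hl0 hv) (mul_le_mul_of_nonneg_left hs hl0.le) hlo ha
  rw [← hA, ← hC, mul_div_mul_left _ _ hl0.ne'] at hsp1
  have hlog : Real.log (l * s * (l * v)) = 2 * Real.log l + Real.log (s * v) := by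
    rw [show l * s * (l * v) = l ^ 2 * (s * v) by ring, Real.log_mul (by positivity) (by positivity),
      Real.log_pow]
    push_cast
    ring
  rw [hlog] at hsp1
  have hll := Real.one_sub_inv_le_log_of_pos hl0
  have h5 : -(2 * c) * (1 - l⁻¹) ≤ -(2 * c) * Real.log l :=
    mul_le_mul_of_nonneg_left hll (by linarith)
  simp only [hq] at hlq
  have h6 : -(2 * c) * (1 - l⁻¹) = -(A * (s - v) + 2 * C * (s * v) * l) * (l - 1) := by
    have h7 : -(2 * c) = -(A * (s - v) + 2 * C * (s * v) * l) * l := by linarith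
    rw [h7]
    field_simp
  rw [h6] at h5
  have h8 : 0 ≤ -C * (s * v) * (l - 1) ^ 2 := by
    have : 0 < -C := by linarith
    positivity
  nlinarith

theorem supp (hR : RCp (wv h (fun z => c * Real.log z))) {s0 v0 : ℝ} (hv0 : 0 < v0) (hs0 : v0 ≤ s0)
    (β : ℝ) : Supp h c β s0 v0 := by
  have hK0 : 1 ≤ s0 / v0 := by rw [le_div_iff₀ hv0]; linarith
  rcases le_or_gt 0 c with hc | hc
  · obtain ⟨a, ha1, ha2⟩ := sub_ge hR hc hK0
    exact suppV β hv0 hs0 (by rwa [abs_of_nonneg hc]) ha2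
  rcases eq_or_lt_of_le hs0 with h1 | h1
  · -- the point is conformal
    subst h1
    have hvv : v0 / v0 = 1 := div_self hv0.ne'
    refine suppN (A := 0) (C := c / (v0 * v0)) (D := h 1 + c * Real.log (v0 * v0) - c) β le_rfl ?_ ?_
    · intro s v hv hs
      have h2 : h 1 ≤ h (s / v) := mono_h hR (mem_Ici.2 le_rfl)
        (mem_Ici.2 (by rw [le_div_iff₀ hv]; linarith)) (by rw [le_div_iff₀ hv]; linarith)
      have hsp : 0 < s := by linarith
      have h3 := Real.log_le_sub_one_of_pos (x := s * v / (v0 * v0)) (by positivity)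
      rw [Real.log_div (by positivity) (by positivity)] at h3
      have h4 : c * (s * v / (v0 * v0) - 1) ≤ c * (Real.log (s * v) - Real.log (v0 * v0)) :=
        mul_le_mul_of_nonpos_left h3 hc.le
      have h5 : c / (v0 * v0) * (s * v) = c * (s * v / (v0 * v0)) := by ring
      rw [h5]
      linarith
    · rw [hvv]
      field_simp
      ring
  have hK1 : 1 < s0 / v0 := by rw [lt_div_iff₀ hv0]; linarith
  obtain ⟨a, ha⟩ := subg (u_conv hR) hK1
  rcases le_or_gt (-c) a with h2 | h2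
  · exact suppV β hv0 hs0 (by rwa [abs_of_neg hc]) ha
  have ha0 : 0 ≤ a * s0 - c * v0 := by
    have h1 := sub_neg hR hc hK1 ha
    have h2 := mul_nonneg h1 hv0.le
    have e : (a * (s0 / v0) - c) * v0 = a * s0 - c * v0 := by field_simp
    rwa [e] at h2
  have hs0p : 0 < s0 := by linarith
  refine suppN (A := 2 * (a * s0 - c * v0) / (v0 * (s0 + v0)))
    (C := -(a * (s0 - v0) - 2 * c * v0) / (v0 ^ 2 * (s0 + v0)))
    (D := h (s0 / v0) + c * Real.log (s0 * v0)
      - 2 * (a * s0 - c * v0) / (v0 * (s0 + v0)) * (s0 - v0)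
      - -(a * (s0 - v0) - 2 * c * v0) / (v0 ^ 2 * (s0 + v0)) * (s0 * v0)) β ?_ ?_ ?_
  · positivity
  · intro s v hv hs
    have := nineq hR hc hv0 h1 h2 ha hv hs
    linarith
  · ring

end Pool.Agent.R222.VI
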