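import Pool.Agent.Y273.VI.Rc

/-!
# Energies with an additive volumetric-isochoric split: reduction to a logarithmic volumetric part

Notation: a matrix with positive determinant is a pair `F = (u_z, u_zbar)` of complex numbers with
`|F.2| < |F.1|`; its singular values are `s = |F.1| + |F.2|` and `v = |F.1| - |F.2|`.
-/

set_option autoImplicit false

namespace Pool.Agent.R222.VI

open MeasureTheory Set Filter Topology
open Pool.Agent.Y273.VI (RCp)

/-- the determinant -/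
noncomputable def Dt (F : ℂ × ℂ) : ℝ := ‖F.1‖ ^ 2 - ‖F.2‖ ^ 2

/-- the ratio of the singular values -/
noncomputable def Rt (F : ℂ × ℂ) : ℝ := (‖F.1‖ + ‖F.2‖) / (‖F.1‖ - ‖F.2‖)

/-- the energy -/
noncomputable def wv (h f : ℝ → ℝ) (F : ℂ × ℂ) : ℝ := h (Rt F) + f (Dt F)

/-- the domain -/
def Pos (F : ℂ × ℂ) : Prop := ‖F.2‖ < ‖F.1‖

theorem Dt_pos {F : ℂ × ℂ} : Pos F ↔ 0 < Dt F := by
  unfold Dt Pos
  rw [sub_pos, sq_lt_sq₀ (norm_nonneg _) (norm_nonneg _)]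

theorem Rt_ge {F : ℂ × ℂ} (h : Pos F) : 1 ≤ Rt F := by
  have h' : ‖F.2‖ < ‖F.1‖ := h
  unfold Rt
  rw [le_div_iff₀ (by linarith)]
  linarith [norm_nonneg F.2]

theorem Dt_smul (l : ℝ) (F : ℂ × ℂ) : Dt (l • F) = l ^ 2 * Dt F := by
  unfold Dt
  simp only [Prod.smul_fst, Prod.smul_snd, norm_smul, Real.norm_eq_abs, mul_pow, sq_abs]
  ring

theorem Rt_smul {l : ℝ} (hl : 0 < l) (F : ℂ × ℂ) : Rt (l • F) = Rt F := by
  unfold Rt
  simp only [Prod.smul_fst, Prod.smul_snd, norm_smul, Real.norm_eq_abs, abs_of_pos hl]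
  rw [← mul_add, ← mul_sub, mul_div_mul_left _ _ hl.ne']

theorem Pos_smul {l : ℝ} (hl : 0 < l) {F : ℂ × ℂ} (h : Pos F) : Pos (l • F) := by
  rw [Dt_pos] at h ⊢
  rw [Dt_smul]
  positivity

theorem Dt_line (F H : ℂ × ℂ) (h : ‖H.1‖ = ‖H.2‖) (t : ℝ) :
    Dt (F + t • H) = (1 - t) * Dt F + t * Dt (F + H) := by
  have := Pool.Agent.Y273.VI.det_line F H h t
  simp only [Pool.Agent.Y273.VI.det_bac] at this
  exact this

theorem conv_line {w : ℂ × ℂ → ℝ} (hR : RCp w) (F H : ℂ × ℂ) (hH : ‖H.1‖ = ‖H.2‖) {I : Set ℝ}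
    (hI : Convex ℝ I) (hp : ∀ t ∈ I, Pos (F + t • H)) :
    ConvexOn ℝ I (fun t => w (F + t • H)) := by
  refine ⟨hI, fun x hx y hy p q hp' hq hpq => ?_⟩
  have hy' : F + x • H + (y - x) • H = F + y • H := by
    rw [add_assoc, ← add_smul]; congr 2; ring
  have hH' : ‖((y - x) • H).1‖ = ‖((y - x) • H).2‖ := by
    simp only [Prod.smul_fst, Prod.smul_snd, norm_smul, hH]
  have h := hR (F + x • H) ((y - x) • H) hH' (hp x hx) (by rw [hy']; exact hp y hy) q hq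
    (by linarith)
  rw [hy'] at h
  have e : F + x • H + q • (y - x) • H = F + (p • x + q • y) • H := by
    rw [add_assoc, smul_smul, ← add_smul]
    congr 2
    simp only [smul_eq_mul]
    have : p = 1 - q := by linarith
    subst this
    ring
  rw [e] at h
  have : p = 1 - q := by linarith
  subst this
  simpa only [smul_eq_mul] using h

/-! ### the shear line -/

theorem norm_one_add (t : ℝ) : ‖(1 : ℂ) + t • Complex.I‖ = Real.sqrt (1 + t ^ 2) := by
  rw [Complex.norm_def]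
  congr 1
  rw [Complex.normSq_apply]
  simp
  ring

theorem norm_add_I (x t : ℝ) : ‖(x : ℂ) + t • Complex.I‖ = Real.sqrt (x ^ 2 + t ^ 2) := by
  rw [Complex.norm_def]
  congr 1
  rw [Complex.normSq_apply]
  simp
  ring

/-- the points `(x + i t, y + i t)` -/
theorem shear_norm (x y t : ℝ) :
    ‖(((x : ℂ), (y : ℂ)) + t • ((Complex.I, Complex.I) : ℂ × ℂ)).1‖ = Real.sqrt (x ^ 2 + t ^ 2) ∧
    ‖(((x : ℂ), (y : ℂ)) + t • ((Complex.I, Complex.I) : ℂ × ℂ)).2‖ = Real.sqrt (y ^ 2 + t ^ 2) :=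
  ⟨norm_add_I x t, norm_add_I y t⟩

theorem shear_Dt (x y t : ℝ) :
    Dt (((x : ℂ), (y : ℂ)) + t • ((Complex.I, Complex.I) : ℂ × ℂ)) = x ^ 2 - y ^ 2 := by
  unfold Dt
  rw [(shear_norm x y t).1, (shear_norm x y t).2, Real.sq_sqrt (by positivity),
    Real.sq_sqrt (by positivity)]
  ring

theorem shear_conv {w : ℂ × ℂ → ℝ} (hR : RCp w) {x y : ℝ} (hxy : y ^ 2 < x ^ 2) :
    ConvexOn ℝ univ (fun t : ℝ => w (((x : ℂ), (y : ℂ)) + t • ((Complex.I, Complex.I) : ℂ × ℂ))) := by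
  refine conv_line hR _ _ rfl convex_univ fun t _ => ?_
  rw [Dt_pos, shear_Dt]
  linarith

/-- the point with determinant one and ratio `k` -/
theorem shear_Rt {k : ℝ} (hk : 1 ≤ k) :
    Rt (((1 : ℝ) : ℂ), ((0 : ℝ) : ℂ)) = 1 ∧
    Rt ((((1 : ℝ) : ℂ), ((0 : ℝ) : ℂ)) + ((Real.sqrt k - (Real.sqrt k)⁻¹) / 2) •
      ((Complex.I, Complex.I) : ℂ × ℂ)) = k := by
  constructor
  · unfold Rt; simp
  · unfold Rt
    rw [(shear_norm 1 0 _).1, (shear_norm 1 0 _).2]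
    have hk0 : 0 < k := by linarith
    have hs : 0 < Real.sqrt k := Real.sqrt_pos.2 hk0
    have hsq : Real.sqrt k ^ 2 = k := Real.sq_sqrt hk0.le
    have h1s : 1 ≤ Real.sqrt k := by rw [Real.one_le_sqrt]; exact hk
    have hi : (Real.sqrt k)⁻¹ ≤ 1 := inv_le_one_of_one_le₀ h1s
    set r := Real.sqrt k with hr
    have hri : r * r⁻¹ = 1 := mul_inv_cancel₀ hs.ne'
    have e1 : Real.sqrt (1 ^ 2 + ((r - r⁻¹) / 2) ^ 2) = (r + r⁻¹) / 2 := by
      rw [Real.sqrt_eq_iff_mul_self_eq (by positivity) (by positivity)]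
      nlinarith
    have e2 : Real.sqrt (0 ^ 2 + ((r - r⁻¹) / 2) ^ 2) = (r - r⁻¹) / 2 := by
      rw [zero_pow two_ne_zero, zero_add, Real.sqrt_sq (by linarith)]
    rw [e1, e2]
    have e3 : (r + r⁻¹) / 2 + (r - r⁻¹) / 2 = r := by ring
    have e4 : (r + r⁻¹) / 2 - (r - r⁻¹) / 2 = r⁻¹ := by ring
    rw [e3, e4, div_inv_eq_mul, ← sq, hsq]

/-- `h` is continuous -/
theorem cont_h {h f : ℝ → ℝ} (hR : RCp (wv h f)) : ContinuousOn h (Ici 1) := by
  have hc := shear_conv hR (x := 1) (y := 0) (by norm_num)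
  have hcont : Continuous (fun t : ℝ => wv h f ((((1 : ℝ) : ℂ), ((0 : ℝ) : ℂ))
      + t • ((Complex.I, Complex.I) : ℂ × ℂ))) :=
    continuousOn_univ.1 (hc.continuousOn isOpen_univ)
  have hg : ContinuousOn (fun k : ℝ => (Real.sqrt k - (Real.sqrt k)⁻¹) / 2) (Ici 1) := by
    apply ContinuousOn.div_const
    apply ContinuousOn.sub (Real.continuous_sqrt.continuousOn)
    apply ContinuousOn.inv₀ (Real.continuous_sqrt.continuousOn)
    intro k hk
    have hk' : (1 : ℝ) ≤ k := hk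
    exact (Real.sqrt_pos.2 (by linarith)).ne'
  have h1 := (hcont.comp_continuousOn hg).sub (continuousOn_const (c := f 1))
  refine h1.congr fun k hk => ?_
  have hk' : (1 : ℝ) ≤ k := hk
  change h k = wv h f _ - f 1
  unfold wv
  rw [(shear_Rt hk').2, shear_Dt]
  norm_num

/-- `h` is nondecreasing -/
theorem mono_h {h f : ℝ → ℝ} (hR : RCp (wv h f)) : MonotoneOn h (Ici 1) := by
  -- an even convex function of the shear is monotone
  have hc := shear_conv hR (x := 1) (y := 0) (by norm_num)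
  set φ : ℝ → ℝ := fun t : ℝ => wv h f ((((1 : ℝ) : ℂ), ((0 : ℝ) : ℂ))
      + t • ((Complex.I, Complex.I) : ℂ × ℂ)) with hφ
  have heven : ∀ t, φ (-t) = φ t := by
    intro t
    simp only [hφ]
    unfold wv Rt Dt
    rw [(shear_norm 1 0 _).1, (shear_norm 1 0 _).2, (shear_norm 1 0 _).1, (shear_norm 1 0 _).2,
      neg_sq]
  have hmono : ∀ a b, 0 ≤ a → a ≤ b → φ a ≤ φ b := by
    intro a b ha hab
    rcases eq_or_lt_of_le (ha.trans hab) with hb | hb
    · have : a = b := le_antisymm hab (by linarith)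
      rw [this]
    have h1 := hc.2 (mem_univ (-b)) (mem_univ b)
      (show 0 ≤ (b - a) / (2 * b) by apply div_nonneg <;> linarith)
      (show 0 ≤ (b + a) / (2 * b) by apply div_nonneg <;> linarith)
      (by field_simp; ring)
    have e : ((b - a) / (2 * b)) • (-b) + ((b + a) / (2 * b)) • b = a := by
      simp only [smul_eq_mul]; field_simp; ring
    rw [e, heven] at h1
    simp only [smul_eq_mul] at h1
    have e2 : (b - a) / (2 * b) * φ b + (b + a) / (2 * b) * φ b = φ b := by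
      field_simp; ring
    linarith
  intro k hk l hl hkl
  have hk' : (1 : ℝ) ≤ k := hk
  have hl' : (1 : ℝ) ≤ l := hl
  have hsk : 1 ≤ Real.sqrt k := by rw [Real.one_le_sqrt]; exact hk'
  have hskl : Real.sqrt k ≤ Real.sqrt l := Real.sqrt_le_sqrt hkl
  have h1 : 0 ≤ (Real.sqrt k - (Real.sqrt k)⁻¹) / 2 := by
    have : (Real.sqrt k)⁻¹ ≤ 1 := inv_le_one_of_one_le₀ hsk
    linarith
  have h2 : (Real.sqrt k - (Real.sqrt k)⁻¹) / 2 ≤ (Real.sqrt l - (Real.sqrt l)⁻¹) / 2 := by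
    have : (Real.sqrt l)⁻¹ ≤ (Real.sqrt k)⁻¹ := inv_anti₀ (by linarith) hskl
    linarith
  have h3 := hmono _ _ h1 h2
  simp only [hφ] at h3
  unfold wv at h3
  rw [(shear_Rt hk').2, (shear_Rt hl').2, shear_Dt, shear_Dt] at h3
  linarith

/-! ### the diagonal line -/

theorem diag_norm {s v : ℝ} (hv : 0 ≤ v) (hs : v ≤ s) :
    ‖((((s + v) / 2 : ℝ) : ℂ))‖ = (s + v) / 2 ∧ ‖((((s - v) / 2 : ℝ) : ℂ))‖ = (s - v) / 2 := by
  constructor
  · rw [Complex.norm_real, Real.norm_of_nonneg (by linarith)]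
  · rw [Complex.norm_real, Real.norm_of_nonneg (by linarith)]

theorem diag_val {s v : ℝ} (hv : 0 < v) (hs : v ≤ s) :
    Pos ((((s + v) / 2 : ℝ) : ℂ), (((s - v) / 2 : ℝ) : ℂ)) ∧
    Rt ((((s + v) / 2 : ℝ) : ℂ), (((s - v) / 2 : ℝ) : ℂ)) = s / v ∧
    Dt ((((s + v) / 2 : ℝ) : ℂ), (((s - v) / 2 : ℝ) : ℂ)) = s * v := by
  obtain ⟨h1, h2⟩ := diag_norm hv.le hs
  refine ⟨?_, ?_, ?_⟩
  · change ‖_‖ < ‖_‖
    simp only
    rw [h1, h2]
    linarith
  · unfold Rt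
    simp only
    rw [h1, h2]
    congr 1 <;> ring
  · unfold Dt
    simp only
    rw [h1, h2]
    ring

/-- convexity in the largest singular value -/
theorem diag_conv {w : ℂ × ℂ → ℝ} (hR : RCp w) {v : ℝ} (hv : 0 < v) :
    ConvexOn ℝ (Ici v) (fun s : ℝ => w ((((s + v) / 2 : ℝ) : ℂ), (((s - v) / 2 : ℝ) : ℂ))) := by
  have e : ∀ s : ℝ, (((((s + v) / 2 : ℝ) : ℂ), (((s - v) / 2 : ℝ) : ℂ)) : ℂ × ℂ)
      = (((v / 2 : ℝ) : ℂ), ((-(v / 2) : ℝ) : ℂ)) + s • (((1 / 2 : ℝ) : ℂ), ((1 / 2 : ℝ) : ℂ)) := by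
    intro s
    apply Prod.ext
    · simp only [Prod.fst_add, Prod.smul_fst, Complex.real_smul]
      push_cast
      ring
    · simp only [Prod.snd_add, Prod.smul_snd, Complex.real_smul]
      push_cast
      ring
  simp only [e]
  refine conv_line hR _ _ rfl (convex_Ici v) fun s hs => ?_
  rw [← e]
  exact (diag_val hv hs).1

/-- `f` is continuous -/
theorem cont_f {h f : ℝ → ℝ} (hR : RCp (wv h f)) : ContinuousOn f (Ioi 0) := by
  intro z hz
  have hz0 : (0 : ℝ) < z := hz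
  set v : ℝ := Real.sqrt z / 2 with hv
  have hsz : 0 < Real.sqrt z := Real.sqrt_pos.2 hz0
  have hv0 : 0 < v := by positivity
  have hvz : v ^ 2 < z := by
    rw [hv, div_pow, Real.sq_sqrt hz0.le]; linarith
  have hvz' : v < z / v := by rw [lt_div_iff₀ hv0, ← sq]; exact hvz
  have h1 := (diag_conv hR hv0).subset Ioi_subset_Ici_self (convex_Ioi v)
  have h2 : ContinuousAt (fun s : ℝ => wv h f ((((s + v) / 2 : ℝ) : ℂ),
      (((s - v) / 2 : ℝ) : ℂ))) (z / v) :=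
    (h1.continuousOn isOpen_Ioi).continuousAt (Ioi_mem_nhds hvz')
  have h3 : ContinuousAt (fun y : ℝ => y / v) z := by fun_prop
  have h4 : ContinuousAt (fun y : ℝ => wv h f (((((y / v) + v) / 2 : ℝ) : ℂ),
      ((((y / v) - v) / 2 : ℝ) : ℂ))) z := ContinuousAt.comp (g := fun s : ℝ => wv h f
        ((((s + v) / 2 : ℝ) : ℂ), (((s - v) / 2 : ℝ) : ℂ))) h2 h3
  have h5 : ContinuousAt (fun y : ℝ => h (y / v ^ 2)) z := by
    have h6 : (1 : ℝ) < z / v ^ 2 := by rw [lt_div_iff₀ (by positivity), one_mul]; exact hvz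
    have h7 : ContinuousAt h (z / v ^ 2) := (cont_h hR).continuousAt (Ici_mem_nhds h6)
    exact ContinuousAt.comp (g := h) (f := fun y : ℝ => y / v ^ 2) h7 (by fun_prop)
  have h8 : ContinuousAt f z := by
    refine (h4.sub h5).congr ?_
    filter_upwards [Ioi_mem_nhds hvz] with y hy
    have hy' : v ^ 2 < y := hy
    have hy2 : v ≤ y / v := by rw [le_div_iff₀ hv0, ← sq]; exact hy'.le
    have hd := diag_val hv0 hy2
    simp only [wv, Pi.sub_apply]
    rw [hd.2.1, hd.2.2, div_div, ← sq, div_mul_cancel₀ _ hv0.ne']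
    ring
  exact h8.continuousWithinAt

/-! ### a maximum principle -/

theorem max_princ {ψ : ℝ → ℝ} (hc : ContinuousOn ψ (Icc 0 1)) (h0 : ψ 0 ≤ 0) (h1 : ψ 1 ≤ 0)
    (hm : ∀ t, 0 < t → t < 1 → ∃ r, 0 < r ∧ 0 ≤ t - r ∧ t + r ≤ 1 ∧
      2 * ψ t ≤ ψ (t - r) + ψ (t + r)) : ∀ t ∈ Icc (0 : ℝ) 1, ψ t ≤ 0 := by
  by_contra hcon
  push Not at hcon
  obtain ⟨a, ha, hpos⟩ := hcon
  obtain ⟨b, hb, hmax⟩ := isCompact_Icc.exists_isMaxOn (⟨a, ha⟩ : (Icc (0 : ℝ) 1).Nonempty) hc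
  set M := ψ b with hM
  have hM0 : 0 < M := hpos.trans_le (hmax ha)
  set E : Set ℝ := Icc 0 1 ∩ ψ ⁻¹' {M} with hE
  have hEc : IsCompact E := by
    have : IsClosed E := hc.preimage_isClosed_of_isClosed isClosed_Icc isClosed_singleton
    exact isCompact_Icc.of_isClosed_subset this inter_subset_left
  have hEn : E.Nonempty := ⟨b, hb, rfl⟩
  have hs := hEc.sInf_mem hEn
  set t := sInf E with ht
  have htM : ψ t = M := hs.2
  have ht0 : 0 < t := by
    rcases eq_or_lt_of_le hs.1.1 with h | h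
    · rw [← h] at htM; linarith
    · exact h
  have ht1 : t < 1 := by
    rcases eq_or_lt_of_le hs.1.2 with h | h
    · rw [h] at htM; linarith
    · exact h
  obtain ⟨r, hr0, hr1, hr2, hr3⟩ := hm t ht0 ht1
  have h2 : ψ (t + r) ≤ M := hmax (show t + r ∈ Icc (0 : ℝ) 1 from ⟨by linarith, hr2⟩)
  have h3 : ψ (t - r) ≤ M := hmax (show t - r ∈ Icc (0 : ℝ) 1 from ⟨hr1, by linarith⟩)
  have h4 : ψ (t - r) ≠ M := by
    intro h
    have : t - r ∈ E := ⟨⟨hr1, by linarith⟩, h⟩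
    have := csInf_le hEc.bddBelow this
    linarith
  have h5 := lt_of_le_of_ne h3 h4
  linarith

end Pool.Agent.R222.VI
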