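import Pool.Agent.R222.VI.Dic
import Pool.Agent.Y273.VI.Main

/-! # Supports of the energies with a logarithmic volumetric part -/

set_option autoImplicit false

namespace Pool.Agent.R222.VI

open MeasureTheory Set Filter Topology
open Pool.Agent.Y273.VI (RCp Dat sub_grad_on deriv_nonneg')

variable {h : ℝ → ℝ} {c : ℝ}

theorem u_conv (hR : RCp (wv h (fun z => c * Real.log z))) :
    ConvexOn ℝ (Ici 1) (fun K => h K + c * Real.log K) := by
  refine (diag_conv hR (v := 1) one_pos).congr fun s hs => ?_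
  have hs' : (1 : ℝ) ≤ s := hs
  have hd := diag_val (s := s) (v := 1) one_pos hs'
  simp only [wv]
  rw [hd.2.1, hd.2.2, div_one, mul_one]

theorem subg {u : ℝ → ℝ} (hu : ConvexOn ℝ (Ici 1) u) {K0 : ℝ} (hK : 1 < K0) :
    ∃ a, ∀ K, 1 ≤ K → u K0 + a * (K - K0) ≤ u K := by
  obtain ⟨a, ha⟩ := sub_grad_on (hu.subset Ioi_subset_Ici_self (convex_Ioi 1)) isOpen_Ioi
    (mem_Ioi.2 hK)
  refine ⟨a, fun K hK1 => ?_⟩
  rcases eq_or_lt_of_le hK1 with h1 | h1
  · subst h1
    have h2 := ha ((1 + K0) / 2) (mem_Ioi.2 (by linarith))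
    have h3 := hu.2 (mem_Ici.2 (le_refl (1 : ℝ))) (mem_Ici.2 hK.le)
      (show (0 : ℝ) ≤ 1 / 2 by norm_num) (show (0 : ℝ) ≤ 1 / 2 by norm_num) (by norm_num)
    have e : (1 / 2 : ℝ) • (1 : ℝ) + (1 / 2 : ℝ) • K0 = (1 + K0) / 2 := by
      simp only [smul_eq_mul]; ring
    rw [e] at h3
    simp only [smul_eq_mul] at h3
    linarith
  · exact ha K (mem_Ioi.2 h1)

theorem slope_one (hR : RCp (wv h (fun z => c * Real.log z))) (hc : 0 ≤ c) {K : ℝ} (hK : 1 ≤ K) :
    h 1 + c * (K - 1) ≤ h K + c * Real.log K := by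
  have hu := u_conv hR
  have hm := mono_h hR
  set d := h K + c * Real.log K - h 1 with hd
  have key : ∀ ε : ℝ, 0 < ε → ε ≤ 1 → c * (K - 1) ≤ d * (1 + ε * (K - 1)) := by
    intro ε hε hε1
    have hx : 0 < 1 + ε * (K - 1) := by nlinarith
    have h1 := hu.2 (mem_Ici.2 (le_refl (1 : ℝ))) (mem_Ici.2 hK)
      (show 0 ≤ 1 - ε by linarith) hε.le (by ring)
    have e : (1 - ε) • (1 : ℝ) + ε • K = 1 + ε * (K - 1) := by
      simp only [smul_eq_mul]; ring
    rw [e] at h1
    simp only [smul_eq_mul, Real.log_one, mul_zero, add_zero] at h1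
    have h2 : h 1 ≤ h (1 + ε * (K - 1)) := hm (mem_Ici.2 le_rfl) (mem_Ici.2 (by nlinarith))
      (by nlinarith)
    have h3 := Real.one_sub_inv_le_log_of_pos hx
    have h4 : c * (1 - (1 + ε * (K - 1))⁻¹) ≤ ε * d := by
      have := mul_le_mul_of_nonneg_left h3 hc
      rw [hd]
      nlinarith
    have h5 : 1 - (1 + ε * (K - 1))⁻¹ = ε * (K - 1) / (1 + ε * (K - 1)) := by
      field_simp
      ring
    rw [h5] at h4
    have h6 : c * (ε * (K - 1) / (1 + ε * (K - 1))) * (1 + ε * (K - 1))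
        ≤ ε * d * (1 + ε * (K - 1)) := mul_le_mul_of_nonneg_right h4 hx.le
    have h7 : c * (ε * (K - 1) / (1 + ε * (K - 1))) * (1 + ε * (K - 1)) = ε * (c * (K - 1)) := by
      field_simp
    rw [h7, mul_assoc] at h6
    exact le_of_mul_le_mul_left h6 hε
  have hlim : Tendsto (fun ε : ℝ => d * (1 + ε * (K - 1))) (𝓝[>] 0) (𝓝 d) := by
    have h1 : Continuous (fun ε : ℝ => d * (1 + ε * (K - 1))) := by fun_prop
    have h2 := h1.tendsto 0
    simp only [zero_mul, add_zero, mul_one] at h2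
    exact h2.mono_left nhdsWithin_le_nhds
  have hfin : c * (K - 1) ≤ d := by
    refine ge_of_tendsto hlim ?_
    filter_upwards [Ioc_mem_nhdsGT (one_pos)] with ε hε
    exact key ε hε.1 hε.2
  rw [hd] at hfin
  linarith

theorem sub_ge (hR : RCp (wv h (fun z => c * Real.log z))) (hc : 0 ≤ c) {K0 : ℝ} (hK : 1 ≤ K0) :
    ∃ a, c ≤ a ∧ ∀ K, 1 ≤ K → h K0 + c * Real.log K0 + a * (K - K0) ≤ h K + c * Real.log K := by
  rcases eq_or_lt_of_le hK with h1 | h1
  · subst h1
    refine ⟨c, le_rfl, fun K hK => ?_⟩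
    have := slope_one hR hc hK
    rw [Real.log_one]
    linarith
  · obtain ⟨a, ha⟩ := subg (u_conv hR) h1
    refine ⟨a, ?_, ha⟩
    have h2 := ha 1 le_rfl
    have h3 := slope_one hR hc hK
    simp only [Real.log_one] at h2
    by_contra hcon
    push Not at hcon
    nlinarith

theorem sub_neg (hR : RCp (wv h (fun z => c * Real.log z))) (hc : c < 0) {K0 a : ℝ} (hK : 1 < K0)
    (ha : ∀ K, 1 ≤ K → h K0 + c * Real.log K0 + a * (K - K0) ≤ h K + c * Real.log K) :
    0 ≤ a * K0 - c := by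
  have hm := mono_h hR
  have key : ∀ K, 1 ≤ K → K < K0 → 0 ≤ a * K - c := by
    intro K hK1 hK2
    have h1 := ha K hK1
    have h2 : h K ≤ h K0 := hm (mem_Ici.2 hK1) (mem_Ici.2 hK.le) hK2.le
    have hK0 : 0 < K := by linarith
    have h3 := Real.log_le_sub_one_of_pos (x := K0 / K) (by positivity)
    rw [Real.log_div (by positivity) hK0.ne'] at h3
    have h4 : -c * (Real.log K0 - Real.log K) ≤ -c * (K0 / K - 1) :=
      mul_le_mul_of_nonneg_left h3 (by linarith)
    have h5 : a * (K - K0) ≤ -c * (K0 / K - 1) := by linarith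
    have h6 : K0 / K - 1 = (K0 - K) / K := by field_simp
    rw [h6, mul_div_assoc', le_div_iff₀ hK0] at h5
    by_contra hcon
    push Not at hcon
    nlinarith
  have hlim : Tendsto (fun K : ℝ => a * K - c) (𝓝[<] K0) (𝓝 (a * K0 - c)) := by
    have h1 : Continuous (fun K : ℝ => a * K - c) := by fun_prop
    exact (h1.tendsto K0).mono_left nhdsWithin_le_nhds
  refine ge_of_tendsto hlim ?_
  filter_upwards [Ico_mem_nhdsLT hK] with K hK'
  exact key K hK'.1 hK'.2

/-! ### the two kinds of supports -/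

theorem datV {a c : ℝ} (h : |c| ≤ a) (β γ : ℝ) {ρ : ℝ} (hρ : 0 < ρ) :
    Dat (fun v => a / v + β * v) (fun v => 2 * c * Real.log v + γ) ρ
      (-a / ρ ^ 2 + β) (2 * c / ρ) := by
  have ha : 0 ≤ a := (abs_nonneg c).trans h
  have hd1 : ∀ x : ℝ, 0 < x → HasDerivAt (fun v : ℝ => a / v + β * v) (-a / x ^ 2 + β) x := by
    intro x hx
    have h1 := (hasDerivAt_inv hx.ne').const_mul a
    have h2 := (hasDerivAt_id x).const_mul β
    have h3 := h1.add h2
    refine (h3.congr_deriv ?_).congr_of_eventuallyEq (Eventually.of_forall fun v => ?_)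
    · ring
    · simp only [div_eq_mul_inv, Pi.add_apply, id]
  have hd2 : ∀ x : ℝ, 0 < x → HasDerivAt (fun v : ℝ => 2 * c * Real.log v + γ) (2 * c / x) x := by
    intro x hx
    have h1 := ((Real.hasDerivAt_log hx.ne').const_mul (2 * c)).add_const γ
    exact h1.congr_deriv (by ring)
  refine ⟨fun s => ?_, hρ, hd1 ρ hρ, hd2 ρ hρ, ?_⟩
  · -- convexity
    rcases le_or_gt s 0 with hs | hs
    · rw [Ioc_eq_empty (not_lt.2 hs)]
      exact ⟨convex_empty, fun x hx => absurd hx (notMem_empty x)⟩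
    have hconv : ConvexOn ℝ (Ioo 0 s) (fun v => (a / v + β * v) * s + (2 * c * Real.log v + γ)) := by
      refine convexOn_of_hasDerivWithinAt2_nonneg (f' := fun v => (-a / v ^ 2 + β) * s + 2 * c / v)
        (f'' := fun v => (2 * a / v ^ 3) * s - 2 * c / v ^ 2) (convex_Ioo 0 s) ?_ ?_ ?_ ?_
      · intro x hx
        exact (((hd1 x hx.1).mul_const s).add (hd2 x hx.1)).continuousAt.continuousWithinAt
      · intro x hx
        rw [interior_Ioo] at hx
        exact (((hd1 x hx.1).mul_const s).add (hd2 x hx.1)).hasDerivWithinAt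
      · intro x hx
        rw [interior_Ioo] at hx
        have hx0 : x ≠ 0 := hx.1.ne'
        have h1 : HasDerivAt (fun v : ℝ => -a / v ^ 2 + β) (2 * a / x ^ 3) x := by
          have h2 := (hasDerivAt_pow 2 x).inv (pow_ne_zero 2 hx0)
          have h3 := (h2.const_mul (-a)).add_const β
          refine (h3.congr_deriv ?_).congr_of_eventuallyEq (Eventually.of_forall fun v => ?_)
          · field_simp
            norm_num
            ring
          · simp only [div_eq_mul_inv, Pi.inv_apply]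
        have h4 : HasDerivAt (fun v : ℝ => 2 * c / v) (-(2 * c) / x ^ 2) x := by
          have h5 := (hasDerivAt_inv hx0).const_mul (2 * c)
          refine (h5.congr_deriv ?_).congr_of_eventuallyEq (Eventually.of_forall fun v => ?_)
          · ring
          · simp only [div_eq_mul_inv]
        refine (((h1.mul_const s).add h4).congr_deriv ?_).hasDerivWithinAt
        ring
      · intro x hx
        rw [interior_Ioo] at hx
        have hx0 : 0 < x := hx.1
        have h1 : 2 * a / x ^ 3 * s - 2 * c / x ^ 2 = 2 * (a * s - c * x) / x ^ 3 := by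
          field_simp
        rw [h1]
        apply div_nonneg _ (by positivity)
        have h2 : c ≤ a := (le_abs_self c).trans h
        have h3 : c * x ≤ a * x := mul_le_mul_of_nonneg_right h2 hx0.le
        have h4 : a * x ≤ a * s := mul_le_mul_of_nonneg_left hx.2.le ha
        linarith
    -- extension to the closed end point
    have hc : ContinuousOn (fun v => (a / v + β * v) * s + (2 * c * Real.log v + γ)) (Ioc 0 s) := by
      intro x hx
      exact (((hd1 x hx.1).mul_const s).add (hd2 x hx.1)).continuousAt.continuousWithinAt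
    refine ⟨convex_Ioc 0 s, fun x hx y hy p q hp hq hpq => ?_⟩
    have hlim : ∀ z ∈ Ioc 0 s, Tendsto (fun t : ℝ => (fun v => (a / v + β * v) * s
        + (2 * c * Real.log v + γ)) (t * z)) (𝓝[<] 1) (𝓝 ((fun v => (a / v + β * v) * s
        + (2 * c * Real.log v + γ)) z)) := by
      intro z hz
      have h1 : ContinuousAt (fun v => (a / v + β * v) * s + (2 * c * Real.log v + γ)) z :=
        (((hd1 z hz.1).mul_const s).add (hd2 z hz.1)).continuousAt
      have h2 : Tendsto (fun t : ℝ => t * z) (𝓝[<] 1) (𝓝 z) := by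
        have h3 : Continuous (fun t : ℝ => t * z) := by fun_prop
        have h4 := h3.tendsto 1
        rw [one_mul] at h4
        exact h4.mono_left nhdsWithin_le_nhds
      exact h1.tendsto.comp h2
    have hz := (convex_Ioc 0 s) hx hy hp hq hpq
    refine le_of_tendsto_of_tendsto (hlim _ hz)
      (((hlim x hx).const_mul p).add ((hlim y hy).const_mul q)) ?_
    filter_upwards [Ioo_mem_nhdsLT (zero_lt_one' ℝ)] with t ht
    have hin : ∀ z ∈ Ioc 0 s, t * z ∈ Ioo 0 s := by
      intro z hz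
      exact ⟨mul_pos ht.1 hz.1, by nlinarith [hz.1, hz.2, ht.2]⟩
    have h1 := hconv.2 (hin x hx) (hin y hy) hp hq hpq
    have e : p • (t * x) + q • (t * y) = t * (p • x + q • y) := by
      simp only [smul_eq_mul]; ring
    rw [e] at h1
    simpa only [smul_eq_mul] using h1
  · -- the inequality
    rw [abs_div, abs_of_pos hρ, div_le_iff₀ hρ, abs_mul, abs_of_pos (by norm_num : (0 : ℝ) < 2)]
    have e : (a / ρ + β * ρ - ρ * (-a / ρ ^ 2 + β)) * ρ = 2 * a := by
      field_simp
      ring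
    rw [e]
    linarith

theorem datN {A : ℝ} (hA : 0 ≤ A) (β γ : ℝ) {ρ : ℝ} (hρ : 0 < ρ) :
    Dat (fun v => A + β * v) (fun v => γ - A * v) ρ β (-A) := by
  refine ⟨fun s => ⟨convex_Ioc 0 s, fun x _ y _ p q _ _ hpq => le_of_eq ?_⟩, hρ, ?_, ?_, ?_⟩
  · simp only [smul_eq_mul]
    have : q = 1 - p := by linarith
    subst this
    ring
  · have := ((hasDerivAt_id ρ).const_mul β).const_add A
    exact this.congr_deriv (by ring)
  · have := ((hasDerivAt_id ρ).const_mul A).const_sub γ
    exact this.congr_deriv (by ring)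
  · rw [abs_neg, abs_of_nonneg hA]
    linarith

/-- what a support is -/
def Supp (h : ℝ → ℝ) (c β s0 v0 : ℝ) : Prop :=
  ∃ a b : ℝ → ℝ, (∀ ρ, 0 < ρ → ∃ A B, Dat a b ρ A B) ∧
    (∀ s v, 0 < v → v ≤ s → a v * s + b v ≤ h (s / v) + c * Real.log (s * v) + β * (s * v)) ∧
    a v0 * s0 + b v0 = h (s0 / v0) + c * Real.log (s0 * v0) + β * (s0 * v0)

theorem log_sv {s v : ℝ} (hv : 0 < v) (hs : v ≤ s) :
    Real.log (s * v) = Real.log (s / v) + 2 * Real.log v := by
  rw [Real.log_mul (by linarith) hv.ne', Real.log_div (by linarith) hv.ne']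
  ring

theorem suppV {a s0 v0 : ℝ} (β : ℝ) (hv0 : 0 < v0) (hs0 : v0 ≤ s0) (hac : |c| ≤ a)
    (ha : ∀ K, 1 ≤ K → h (s0 / v0) + c * Real.log (s0 / v0) + a * (K - s0 / v0)
      ≤ h K + c * Real.log K) : Supp h c β s0 v0 := by
  refine ⟨_, _, fun ρ hρ => ⟨_, _, datV hac β
    (h (s0 / v0) + c * Real.log (s0 / v0) - a * (s0 / v0)) hρ⟩, ?_, ?_⟩
  · intro s v hv hs
    have h1 := ha (s / v) (by rw [le_div_iff₀ hv]; linarith)
    rw [log_sv hv hs]
    have e : (a / v + β * v) * s = a * (s / v) + β * (s * v) := by ring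
    rw [e]
    linarith
  · rw [log_sv hv0 hs0]
    ring

theorem suppN {A C D s0 v0 : ℝ} (β : ℝ) (hA : 0 ≤ A)
    (h1 : ∀ s v, 0 < v → v ≤ s → A * (s - v) + C * (s * v) + D ≤ h (s / v) + c * Real.log (s * v))
    (h2 : A * (s0 - v0) + C * (s0 * v0) + D = h (s0 / v0) + c * Real.log (s0 * v0)) :
    Supp h c β s0 v0 := by
  refine ⟨_, _, fun ρ hρ => ⟨_, _, datN hA (C + β) D hρ⟩, ?_, ?_⟩
  · intro s v hv hs
    have := h1 s v hv hs
    linarith
  · linarith

end Pool.Agent.R222.VI
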